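import Pool.Agent.Helper95.CK.Main
import Pool.Agent.Helper17.CA.GraphAll

/-!
Part (K) of the project Cantoni (MP_16e137_co), in the form asked for by the assembly.
-/

set_option autoImplicit false

namespace Pool.Agent.Helper95.CK

open Pool.Agent.Helper17.CT Pool.Agent.Helper17.CA

theorem planeOf : PlaneOf := by
  intro V _ _ G h3 hH h33
  obtain ⟨s, u, p, hp, -⟩ := hH
  exact plane_of_minorfree h3 p hp h33

end Pool.Agent.Helper95.CK
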