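import Pool.Agent.Helper95.CK.Odd

/-!
Kuratowski for Hamiltonian cubic graphs, part 3: three mutually crossing chords give K33.
-/

set_option autoImplicit false

namespace Pool.Agent.Helper95.CK

variable {V : Type}

lemma hex {G : SimpleGraph V} {B : ℕ → Set V} {a b c a' b' c' : ℕ} (h1 : a < b) (h2 : b < c)
    (h3 : c < a') (h4 : a' < b') (h5 : b' < c') (hC : Cir G {a, b, c, a', b', c'} B)
    (l1 : Lk G (B a) (B a')) (l2 : Lk G (B b) (B b')) (l3 : Lk G (B c) (B c')) : HasK33 G := by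
  have hm : ∀ z, z ∈ ({a, b, c, a', b', c'} : Finset ℕ) ↔
      z = a ∨ z = b ∨ z = c ∨ z = a' ∨ z = b' ∨ z = c' := by
    intro z; simp only [Finset.mem_insert, Finset.mem_singleton]
  have ma : a ∈ ({a, b, c, a', b', c'} : Finset ℕ) := (hm _).2 (by omega)
  have mb : b ∈ ({a, b, c, a', b', c'} : Finset ℕ) := (hm _).2 (by omega)
  have mc : c ∈ ({a, b, c, a', b', c'} : Finset ℕ) := (hm _).2 (by omega)
  have ma' : a' ∈ ({a, b, c, a', b', c'} : Finset ℕ) := (hm _).2 (by omega)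
  have mb' : b' ∈ ({a, b, c, a', b', c'} : Finset ℕ) := (hm _).2 (by omega)
  have mc' : c' ∈ ({a, b, c, a', b', c'} : Finset ℕ) := (hm _).2 (by omega)
  have n1 : Lk G (B a) (B b) := hC.lk _ _ ⟨ma, mb, Or.inl ⟨h1, fun z hz hh => by
    have := (hm z).1 hz; omega⟩⟩
  have n2 : Lk G (B b) (B c) := hC.lk _ _ ⟨mb, mc, Or.inl ⟨h2, fun z hz hh => by
    have := (hm z).1 hz; omega⟩⟩
  have n3 : Lk G (B c) (B a') := hC.lk _ _ ⟨mc, ma', Or.inl ⟨h3, fun z hz hh => by
    have := (hm z).1 hz; omega⟩⟩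
  have n4 : Lk G (B a') (B b') := hC.lk _ _ ⟨ma', mb', Or.inl ⟨h4, fun z hz hh => by
    have := (hm z).1 hz; omega⟩⟩
  have n5 : Lk G (B b') (B c') := hC.lk _ _ ⟨mb', mc', Or.inl ⟨h5, fun z hz hh => by
    have := (hm z).1 hz; omega⟩⟩
  have n6 : Lk G (B c') (B a) := hC.lk _ _ ⟨mc', ma, Or.inr ⟨by omega, fun z hz => by
    have := (hm z).1 hz; omega⟩⟩
  have hd := hC.dis
  refine ⟨![B a, B c, B b'], ![B b, B a', B c'], ?_, ?_, ?_, ?_, ?_, ?_⟩
  · intro i
    fin_cases i
    · exact hC.con _ ma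
    · exact hC.con _ mc
    · exact hC.con _ mb'
  · intro i
    fin_cases i
    · exact hC.con _ mb
    · exact hC.con _ ma'
    · exact hC.con _ mc'
  · intro i j hij
    fin_cases i <;> fin_cases j
    · exact absurd rfl hij
    · exact hd _ ma _ mc (by omega)
    · exact hd _ ma _ mb' (by omega)
    · exact hd _ mc _ ma (by omega)
    · exact absurd rfl hij
    · exact hd _ mc _ mb' (by omega)
    · exact hd _ mb' _ ma (by omega)
    · exact hd _ mb' _ mc (by omega)
    · exact absurd rfl hij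
  · intro i j hij
    fin_cases i <;> fin_cases j
    · exact absurd rfl hij
    · exact hd _ mb _ ma' (by omega)
    · exact hd _ mb _ mc' (by omega)
    · exact hd _ ma' _ mb (by omega)
    · exact absurd rfl hij
    · exact hd _ ma' _ mc' (by omega)
    · exact hd _ mc' _ mb (by omega)
    · exact hd _ mc' _ ma' (by omega)
    · exact absurd rfl hij
  · intro i j
    fin_cases i <;> fin_cases j
    · exact hd _ ma _ mb (by omega)
    · exact hd _ ma _ ma' (by omega)
    · exact hd _ ma _ mc' (by omega)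
    · exact hd _ mc _ mb (by omega)
    · exact hd _ mc _ ma' (by omega)
    · exact hd _ mc _ mc' (by omega)
    · exact hd _ mb' _ mb (by omega)
    · exact hd _ mb' _ ma' (by omega)
    · exact hd _ mb' _ mc' (by omega)
  · intro i j
    fin_cases i <;> fin_cases j
    · exact n1
    · exact l1
    · exact n6.symm
    · exact n2.symm
    · exact n3
    · exact l3
    · exact l2.symm
    · exact n4.symm
    · exact n5

lemma base_ord {G : SimpleGraph V} {P : Finset ℕ} {B : ℕ → Set V} {c : ℕ → ℕ} {Q : Finset ℕ}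
    (hS : Sys G P B c Q) {x y z : ℕ} (hx : x < c x) (hy : y < c y) (hz : z < c z)
    (h1 : Crs c Q x y) (h2 : Crs c Q y z) (h3 : Crs c Q x z) (o1 : x < y) (o2 : y < z) :
    HasK33 G := by
  obtain ⟨qx, qy, a1, a2, a3⟩ := h1
  obtain ⟨-, qz, b1, b2, b3⟩ := h2
  obtain ⟨-, -, c1, c2, c3⟩ := h3
  have e1 : c x < c y ∧ y < c x := by
    have : c x ≠ c y := fun e => a1 (by rw [← hS.inv.cc x qx, e, hS.inv.cc y qy])
    unfold Cr at a3; omega
  have e2 : c y < c z ∧ z < c y := by
    have : c y ≠ c z := fun e => b1 (by rw [← hS.inv.cc y qy, e, hS.inv.cc z qz])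
    unfold Cr at b3; omega
  have e3 : c x < c z ∧ z < c x := by
    have : c x ≠ c z := fun e => c1 (by rw [← hS.inv.cc x qx, e, hS.inv.cc z qz])
    unfold Cr at c3; omega
  have hsub : ({x, y, z, c x, c y, c z} : Finset ℕ) ⊆ P := by
    intro w hw
    apply hS.sub
    simp only [Finset.mem_insert, Finset.mem_singleton] at hw
    rcases hw with h | h | h | h | h | h <;> rw [h]
    · exact qx
    · exact qy
    · exact qz
    · exact hS.inv.cm _ qx
    · exact hS.inv.cm _ qy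
    · exact hS.inv.cm _ qz
  obtain ⟨B', hC, hB⟩ := Cir.restrict _ _ P B rfl hsub hS.cir
  exact hex o1 o2 e3.2 e1.1 e2.1 hC ((hS.cl x qx).mono (hB _) (hB _))
    ((hS.cl y qy).mono (hB _) (hB _)) ((hS.cl z qz).mono (hB _) (hB _))

lemma base3 {G : SimpleGraph V} {P : Finset ℕ} {B : ℕ → Set V} {c : ℕ → ℕ} {Q : Finset ℕ}
    (hS : Sys G P B c Q) {x y z : ℕ} (hx : x < c x) (hy : y < c y) (hz : z < c z)
    (h1 : Crs c Q x y) (h2 : Crs c Q y z) (h3 : Crs c Q x z) : HasK33 G := by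
  have n1 := h1.2.2.1
  have n2 := h2.2.2.1
  have n3 := h3.2.2.1
  rcases lt_or_gt_of_ne n1 with o1 | o1 <;> rcases lt_or_gt_of_ne n2 with o2 | o2 <;>
    rcases lt_or_gt_of_ne n3 with o3 | o3
  · exact base_ord hS hz hy hx (h2.symm hS.inv) (h1.symm hS.inv) (h3.symm hS.inv) o2 o1
  · omega
  · exact base_ord hS hy hz hx h2 (h3.symm hS.inv) (h1.symm hS.inv) o2 o3
  · exact base_ord hS hy hx hz (h1.symm hS.inv) h3 h2 o1 o3
  · exact base_ord hS hz hx hy (h3.symm hS.inv) h1 (h2.symm hS.inv) o3 o1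
  · exact base_ord hS hx hz hy h3 (h2.symm hS.inv) h1 o3 o2
  · omega
  · exact base_ord hS hx hy hz h1 h2 h3 o1 o2

end Pool.Agent.Helper95.CK
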