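import Mathlib

/-!
Kuratowski for Hamiltonian cubic graphs, part 1: circles of branch sets.
-/

set_option autoImplicit false

namespace Pool.Agent.Helper95.CK

variable {V : Type}

/-- Two sets joined by an edge. -/
def Lk (G : SimpleGraph V) (A B : Set V) : Prop := ∃ x, x ∈ A ∧ ∃ y, y ∈ B ∧ G.Adj x y

lemma Lk.symm {G : SimpleGraph V} {A B : Set V} (h : Lk G A B) : Lk G B A := by
  obtain ⟨x, hx, y, hy, h⟩ := h
  exact ⟨y, hy, x, hx, h.symm⟩

lemma Lk.mono {G : SimpleGraph V} {A B A' B' : Set V} (h : Lk G A B) (hA : A ⊆ A') (hB : B ⊆ B') :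
    Lk G A' B' := by
  obtain ⟨x, hx, y, hy, h⟩ := h
  exact ⟨x, hA hx, y, hB hy, h⟩

/-- A K33 minor, as in the frozen statement. -/
def HasK33 (G : SimpleGraph V) : Prop :=
  ∃ f g : Fin 3 → Set V,
          (∀ i : Fin 3, (G.induce (f i)).Connected) ∧
          (∀ i : Fin 3, (G.induce (g i)).Connected) ∧
          (∀ i j : Fin 3, i ≠ j → Disjoint (f i) (f j)) ∧
          (∀ i j : Fin 3, i ≠ j → Disjoint (g i) (g j)) ∧
          (∀ i j : Fin 3, Disjoint (f i) (g j)) ∧
          (∀ i j : Fin 3, ∃ x : V, x ∈ f i ∧ ∃ y : V, y ∈ g j ∧ G.Adj x y)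

lemma con_union {G : SimpleGraph V} {A B : Set V} (hA : (G.induce A).Connected)
    (hB : (G.induce B).Connected) (h : Lk G A B) : (G.induce (A ∪ B)).Connected := by
  obtain ⟨x, hx, y, hy, h⟩ := h
  exact SimpleGraph.connected_induce_union hA.preconnected hB.preconnected hx hy h

/-- `y` follows `x` on the circle `P`. -/
def Nxt (P : Finset ℕ) (x y : ℕ) : Prop :=
  x ∈ P ∧ y ∈ P ∧ ((x < y ∧ ∀ z ∈ P, ¬ (x < z ∧ z < y)) ∨ (y < x ∧ ∀ z ∈ P, y ≤ z ∧ z ≤ x))

/-- A circle of branch sets. -/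
structure Cir (G : SimpleGraph V) (P : Finset ℕ) (B : ℕ → Set V) : Prop where
  con : ∀ x ∈ P, (G.induce (B x)).Connected
  dis : ∀ x ∈ P, ∀ y ∈ P, x ≠ y → Disjoint (B x) (B y)
  lk : ∀ x y, Nxt P x y → Lk G (B x) (B y)

lemma nxt_uniq {P : Finset ℕ} {x x' a : ℕ} (h : Nxt P x a) (h' : Nxt P x' a) : x = x' := by
  obtain ⟨hx, ha, h⟩ := h
  obtain ⟨hx', -, h'⟩ := h'
  rcases h with ⟨h1, h2⟩ | ⟨h1, h2⟩ <;> rcases h' with ⟨h3, h4⟩ | ⟨h3, h4⟩
  · have := h2 x' hx'
    have := h4 x hx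
    omega
  · have := h4 x hx
    omega
  · have := h2 x' hx'
    omega
  · have := h2 x' hx'
    have := h4 x hx
    omega

lemma nxt_erase {P : Finset ℕ} {x y a : ℕ} (ha : a ∈ P) (h : Nxt (P.erase a) x y) :
    Nxt P x y ∨ (Nxt P x a ∧ Nxt P a y) := by
  obtain ⟨hx, hy, h⟩ := h
  obtain ⟨hxa, hx⟩ := Finset.mem_erase.1 hx
  obtain ⟨hya, hy⟩ := Finset.mem_erase.1 hy
  have key : ∀ z ∈ P, z ≠ a → z ∈ P.erase a := fun z hz hza => Finset.mem_erase.2 ⟨hza, hz⟩
  rcases h with ⟨h1, h2⟩ | ⟨h1, h2⟩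
  · by_cases hc : x < a ∧ a < y
    · right
      refine ⟨⟨hx, ha, Or.inl ⟨hc.1, fun z hz hh => ?_⟩⟩, ⟨ha, hy, Or.inl ⟨hc.2, fun z hz hh => ?_⟩⟩⟩
      · exact h2 z (key z hz (by omega)) (by omega)
      · exact h2 z (key z hz (by omega)) (by omega)
    · left
      refine ⟨hx, hy, Or.inl ⟨h1, fun z hz hh => ?_⟩⟩
      by_cases hza : z = a
      · subst hza; exact hc hh
      · exact h2 z (key z hz hza) hh
  · by_cases hc : y ≤ a ∧ a ≤ x
    · left
      refine ⟨hx, hy, Or.inr ⟨h1, fun z hz => ?_⟩⟩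
      by_cases hza : z = a
      · subst hza; exact hc
      · exact h2 z (key z hz hza)
    · right
      have hall : ∀ z ∈ P, z = a ∨ (y ≤ z ∧ z ≤ x) := by
        intro z hz
        by_cases hza : z = a
        · exact Or.inl hza
        · exact Or.inr (h2 z (key z hz hza))
      by_cases hay : a < y
      · refine ⟨⟨hx, ha, Or.inr ⟨by omega, fun z hz => ?_⟩⟩,
          ⟨ha, hy, Or.inl ⟨hay, fun z hz hh => ?_⟩⟩⟩
        · rcases hall z hz with h | h <;> omega
        · rcases hall z hz with h | h <;> omega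
      · refine ⟨⟨hx, ha, Or.inl ⟨by omega, fun z hz hh => ?_⟩⟩,
          ⟨ha, hy, Or.inr ⟨by omega, fun z hz => ?_⟩⟩⟩
        · rcases hall z hz with h | h <;> omega
        · rcases hall z hz with h | h <;> omega

open Classical in
lemma Cir.erase {G : SimpleGraph V} {P : Finset ℕ} {B : ℕ → Set V} (h : Cir G P B) {a : ℕ}
    (ha : a ∈ P) : ∃ B', Cir G (P.erase a) B' ∧ ∀ x, B x ⊆ B' x := by
  refine ⟨fun x => if Nxt P x a then B x ∪ B a else B x, ⟨?_, ?_, ?_⟩, ?_⟩
  · intro x hx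
    have hx' := Finset.mem_of_mem_erase hx
    by_cases hn : Nxt P x a
    · show (G.induce (if Nxt P x a then B x ∪ B a else B x)).Connected
      rw [if_pos hn]
      exact con_union (h.con x hx') (h.con a ha) (h.lk x a hn)
    · show (G.induce (if Nxt P x a then B x ∪ B a else B x)).Connected
      rw [if_neg hn]
      exact h.con x hx'
  · intro x hx y hy hxy
    obtain ⟨hxa, hx'⟩ := Finset.mem_erase.1 hx
    obtain ⟨hya, hy'⟩ := Finset.mem_erase.1 hy
    have d1 := h.dis x hx' y hy' hxy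
    have d2 := h.dis x hx' a ha hxa
    have d3 := h.dis a ha y hy' (Ne.symm hya)
    by_cases hn : Nxt P x a <;> by_cases hm : Nxt P y a
    · exact absurd (nxt_uniq hn hm) hxy
    · simp only [hn, hm, if_true, if_false, Set.disjoint_union_left]
      exact ⟨d1, d3⟩
    · simp only [hn, hm, if_true, if_false, Set.disjoint_union_right]
      exact ⟨d1, d2⟩
    · simp only [hn, hm, if_false]
      exact d1
  · intro x y hxy
    have mono : ∀ z, B z ⊆ (if Nxt P z a then B z ∪ B a else B z) := by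
      intro z
      split_ifs
      · exact Set.subset_union_left
      · exact subset_rfl
    rcases nxt_erase ha hxy with h1 | ⟨h1, h2⟩
    · exact (h.lk x y h1).mono (mono x) (mono y)
    · refine (h.lk a y h2).mono ?_ (mono y)
      simp only [h1, if_true]
      exact Set.subset_union_right
  · intro z
    show B z ⊆ (if Nxt P z a then B z ∪ B a else B z)
    split_ifs
    · exact Set.subset_union_left
    · exact subset_rfl

lemma Cir.restrict {G : SimpleGraph V} (P' : Finset ℕ) : ∀ (n : ℕ) (P : Finset ℕ) (B : ℕ → Set V),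
    (P \ P').card = n → P' ⊆ P → Cir G P B → ∃ B', Cir G P' B' ∧ ∀ x, B x ⊆ B' x := by
  intro n
  induction n with
  | zero =>
    intro P B hc hs h
    have : P ⊆ P' := by
      rw [Finset.card_eq_zero, Finset.sdiff_eq_empty_iff_subset] at hc
      exact hc
    have e : P = P' := Finset.Subset.antisymm this hs
    subst e
    exact ⟨B, h, fun x => subset_rfl⟩
  | succ n ih =>
    intro P B hc hs h
    have hne : (P \ P').Nonempty := by
      rw [← Finset.card_pos]; omega
    obtain ⟨a, ha⟩ := hne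
    obtain ⟨haP, haP'⟩ := Finset.mem_sdiff.1 ha
    obtain ⟨B1, h1, h2⟩ := h.erase haP
    have e1 : (P.erase a \ P') = (P \ P').erase a := by
      ext z
      simp only [Finset.mem_sdiff, Finset.mem_erase]
      tauto
    obtain ⟨B2, h3, h4⟩ := ih (P.erase a) B1 (by rw [e1, Finset.card_erase_of_mem ha, hc]; rfl)
      (fun z hz => Finset.mem_erase.2 ⟨fun hh => haP' (hh ▸ hz), hs hz⟩) h1
    exact ⟨B2, h3, fun x => (h2 x).trans (h4 x)⟩

end Pool.Agent.Helper95.CK
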