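import Pool.Agent.Helper95.CK.Base

/-!
Kuratowski for Hamiltonian cubic graphs, part 4: shortening an odd closed sequence of chords.
-/

set_option autoImplicit false

namespace Pool.Agent.Helper95.CK

variable {V : Type}

/-- `p1, p3` are exactly the points of `E` on one side of the chord `(x,y)`. -/
def SideP (E : Finset ℕ) (x y p1 p3 : ℕ) : Prop :=
  (∀ z ∈ E, (x < z ∧ z < y) ↔ (z = p1 ∨ z = p3)) ∨
    (∀ z ∈ E, (z < x ∨ y < z) ↔ (z = p1 ∨ z = p3))

lemma nxt_gap {E : Finset ℕ} {x y p1 p3 : ℕ} (hx : x ∈ E) (hy : y ∈ E) (h1 : p1 ∈ E)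
    (h3 : p3 ∈ E) (hxy : x < y) (hs : SideP E x y p1 p3) {u v : ℕ}
    (h : Nxt ((E.erase p1).erase p3) u v) :
    Nxt E u v ∨ (u = x ∧ v = y) ∨ (u = y ∧ v = x) := by
  obtain ⟨hu, hv, h⟩ := h
  simp only [Finset.mem_erase] at hu hv h
  obtain ⟨u3, u1, hu⟩ := hu
  obtain ⟨v3, v1, hv⟩ := hv
  rcases hs with hs | hs
  · have su := hs u hu
    have sv := hs v hv
    have s1 := hs p1 h1
    have s3 := hs p3 h3
    have sx := hs x hx
    have sy := hs y hy
    rcases h with ⟨a, b⟩ | ⟨a, b⟩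
    · by_cases hc : (u < p1 ∧ p1 < v) ∨ (u < p3 ∧ p3 < v)
      · right; left
        have bx := b x ⟨by omega, by omega, hx⟩
        have by' := b y ⟨by omega, by omega, hy⟩
        omega
      · left
        refine ⟨hu, hv, Or.inl ⟨a, fun z hz hh => ?_⟩⟩
        have := b z ⟨by rintro rfl; omega, by rintro rfl; omega, hz⟩
        omega
    · left
      have bx := b x ⟨by omega, by omega, hx⟩
      have by' := b y ⟨by omega, by omega, hy⟩
      refine ⟨hu, hv, Or.inr ⟨a, fun z hz => ?_⟩⟩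
      by_cases z1 : z = p1
      · subst z1; omega
      · by_cases z3 : z = p3
        · subst z3; omega
        · exact b z ⟨z3, z1, hz⟩
  · have su := hs u hu
    have sv := hs v hv
    have s1 := hs p1 h1
    have s3 := hs p3 h3
    have sx := hs x hx
    have sy := hs y hy
    rcases h with ⟨a, b⟩ | ⟨a, b⟩
    · left
      refine ⟨hu, hv, Or.inl ⟨a, fun z hz hh => ?_⟩⟩
      have := b z ⟨by rintro rfl; omega, by rintro rfl; omega, hz⟩
      omega
    · right; right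
      have bx := b x ⟨by omega, by omega, hx⟩
      have by' := b y ⟨by omega, by omega, hy⟩
      omega

lemma nxt_pair {E : Finset ℕ} {x y p1 p3 : ℕ} (h1 : p1 ∈ E)
    (h3 : p3 ∈ E) (h13 : p1 ≠ p3) (hs : SideP E x y p1 p3) :
    Nxt E p1 p3 ∨ Nxt E p3 p1 := by
  rcases hs with hs | hs
  · have s1 := hs p1 h1
    have s3 := hs p3 h3
    rcases lt_or_gt_of_ne h13 with h | h
    · left
      refine ⟨h1, h3, Or.inl ⟨h, fun z hz hh => ?_⟩⟩
      have := hs z hz
      omega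
    · right
      refine ⟨h3, h1, Or.inl ⟨h, fun z hz hh => ?_⟩⟩
      have := hs z hz
      omega
  · have s1 := hs p1 h1
    have s3 := hs p3 h3
    rcases lt_or_gt_of_ne h13 with h | h
    · by_cases hc : p1 < x ∧ y < p3
      · right
        refine ⟨h3, h1, Or.inr ⟨h, fun z hz => ?_⟩⟩
        have := hs z hz
        omega
      · left
        refine ⟨h1, h3, Or.inl ⟨h, fun z hz hh => ?_⟩⟩
        have := hs z hz
        omega
    · by_cases hc : p3 < x ∧ y < p1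
      · left
        refine ⟨h1, h3, Or.inr ⟨h, fun z hz => ?_⟩⟩
        have := hs z hz
        omega
      · right
        refine ⟨h3, h1, Or.inl ⟨h, fun z hz hh => ?_⟩⟩
        have := hs z hz
        omega

/-- The new chords: `q1, q3` are joined. -/
def cc (c : ℕ → ℕ) (q1 q3 : ℕ) (z : ℕ) : ℕ := if z = q1 then q3 else if z = q3 then q1 else c z

/-- The new points. -/
def EE (E : Finset ℕ) (p1 p3 : ℕ) : Finset ℕ := (E.erase p1).erase p3

/-- The new chord ends. -/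
def QQ (E : Finset ℕ) (p1 p3 x y : ℕ) : Finset ℕ := ((EE E p1 p3).erase x).erase y

lemma mem_QQ {E : Finset ℕ} {p1 p3 x y z : ℕ} :
    z ∈ QQ E p1 p3 x y ↔ z ≠ y ∧ z ≠ x ∧ z ≠ p3 ∧ z ≠ p1 ∧ z ∈ E := by
  unfold QQ EE
  simp only [Finset.mem_erase]

lemma mem_EE {E : Finset ℕ} {p1 p3 z : ℕ} :
    z ∈ EE E p1 p3 ↔ z ≠ p3 ∧ z ≠ p1 ∧ z ∈ E := by
  unfold EE
  simp only [Finset.mem_erase]

lemma core {G : SimpleGraph V} {E : Finset ℕ} {B : ℕ → Set V} {c : ℕ → ℕ}
    (hS : Sys G E B c E) {x p1 p3 : ℕ} (hx : x ∈ E) (h1 : p1 ∈ E) (h3 : p3 ∈ E)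
    (hxy : x < c x) (h13 : p1 ≠ p3) (h13' : p1 ≠ c p3) (h1x : p1 ≠ x) (h1y : p1 ≠ c x)
    (h3x : p3 ≠ x) (h3y : p3 ≠ c x)
    (hs : SideP E x (c x) p1 p3) :
    ∃ B', Sys G (EE E p1 p3) B' (cc c (c p1) (c p3)) (QQ E p1 p3 x (c x)) := by
  have hI := hS.inv
  have hy : c x ∈ E := hI.cm _ hx
  have hq1 : c p1 ∈ E := hI.cm _ h1
  have hq3 : c p3 ∈ E := hI.cm _ h3
  have inj : ∀ u ∈ E, ∀ v ∈ E, c u = c v → u = v := fun u hu v hv e => by
    rw [← hI.cc u hu, e, hI.cc v hv]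
  have qn : ∀ u ∈ E, ∀ v ∈ E, u ≠ v → c u ≠ c v := fun u hu v hv e e' => e (inj u hu v hv e')
  have n1 : c p1 ≠ p1 := hI.cn _ h1
  have n3 : c p3 ≠ p3 := hI.cn _ h3
  have nq : c p1 ≠ c p3 := qn _ h1 _ h3 h13
  have nq13 : c p1 ≠ p3 := by
    intro e; apply h13'; rw [← e, hI.cc _ h1]
  have nq1x : c p1 ≠ x := by
    intro e; apply h1y; rw [← e, hI.cc _ h1]
  have nq1y : c p1 ≠ c x := qn _ h1 _ hx h1x
  have nq3x : c p3 ≠ x := by
    intro e; apply h3y; rw [← e, hI.cc _ h3]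
  have nq3y : c p3 ≠ c x := qn _ h3 _ hx h3x
  let B' : ℕ → Set V := fun z => if z = c p1 then B (c p1) ∪ B p1 else
    if z = c p3 then B (c p3) ∪ B p3 else B z
  have b1 : B' (c p1) = B (c p1) ∪ B p1 := if_pos rfl
  have b3 : B' (c p3) = B (c p3) ∪ B p3 := by
    show (if c p3 = c p1 then B (c p1) ∪ B p1 else
      if c p3 = c p3 then B (c p3) ∪ B p3 else B (c p3)) = _
    rw [if_neg (Ne.symm nq), if_pos rfl]
  have bz : ∀ z, z ≠ c p1 → z ≠ c p3 → B' z = B z := by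
    intro z z1 z3
    show (if z = c p1 then B (c p1) ∪ B p1 else
      if z = c p3 then B (c p3) ∪ B p3 else B z) = _
    rw [if_neg z1, if_neg z3]
  have mono : ∀ z, B z ⊆ B' z := by
    intro z
    by_cases z1 : z = c p1
    · rw [z1, b1]; exact Set.subset_union_left
    · by_cases z3 : z = c p3
      · rw [z3, b3]; exact Set.subset_union_left
      · rw [bz z z1 z3]
  -- the members of B' z
  have key : ∀ z, z ∈ EE E p1 p3 → ∀ w ∈ B' z, ∃ t ∈ E, w ∈ B t ∧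
      (t = z ∨ (z = c p1 ∧ t = p1) ∨ (z = c p3 ∧ t = p3)) := by
    intro z hz w hw
    obtain ⟨z3, z1, hz⟩ := mem_EE.1 hz
    by_cases e1 : z = c p1
    · subst e1
      rw [b1] at hw
      rcases hw with hw | hw
      · exact ⟨_, hz, hw, Or.inl rfl⟩
      · exact ⟨_, h1, hw, Or.inr (Or.inl ⟨rfl, rfl⟩)⟩
    · by_cases e3 : z = c p3
      · subst e3
        rw [b3] at hw
        rcases hw with hw | hw
        · exact ⟨_, hz, hw, Or.inl rfl⟩
        · exact ⟨_, h3, hw, Or.inr (Or.inr ⟨rfl, rfl⟩)⟩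
      · rw [bz z e1 e3] at hw
        exact ⟨_, hz, hw, Or.inl rfl⟩
  refine ⟨B', ⟨⟨?_, ?_, ?_⟩, ⟨?_, ?_, ?_⟩, ?_, ?_⟩⟩
  · intro z hz
    obtain ⟨z3, z1, hz⟩ := mem_EE.1 hz
    by_cases e1 : z = c p1
    · subst e1
      rw [b1]
      exact con_union (hS.cir.con _ hz) (hS.cir.con _ h1) (hS.cl _ h1).symm
    · by_cases e3 : z = c p3
      · subst e3
        rw [b3]
        exact con_union (hS.cir.con _ hz) (hS.cir.con _ h3) (hS.cl _ h3).symm
      · rw [bz z e1 e3]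
        exact hS.cir.con _ hz
  · intro z hz w hw hzw
    rw [Set.disjoint_left]
    intro a ha ha'
    obtain ⟨t, ht, hat, h⟩ := key z hz a ha
    obtain ⟨t', ht', hat', h'⟩ := key w hw a ha'
    obtain ⟨z3, z1, hz⟩ := mem_EE.1 hz
    obtain ⟨w3, w1, hw⟩ := mem_EE.1 hw
    have htt : t ≠ t' := by
      intro e
      subst e
      rcases h with h | ⟨h, h0⟩ | ⟨h, h0⟩ <;> rcases h' with h' | ⟨h', h0'⟩ | ⟨h', h0'⟩
      · exact hzw (h.symm.trans h')
      · exact z1 (h.symm.trans h0')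
      · exact z3 (h.symm.trans h0')
      · exact w1 (h'.symm.trans h0)
      · exact hzw (h.trans h'.symm)
      · exact h13 (h0.symm.trans h0')
      · exact w3 (h'.symm.trans h0)
      · exact h13 (h0'.symm.trans h0)
      · exact hzw (h.trans h'.symm)
    exact (Set.disjoint_left.1 (hS.cir.dis t ht t' ht' htt)) hat hat'
  · intro u v h
    rcases nxt_gap hx hy h1 h3 hxy hs h with h | ⟨rfl, rfl⟩ | ⟨rfl, rfl⟩
    · exact (hS.cir.lk u v h).mono (mono u) (mono v)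
    · exact (hS.cl _ hx).mono (mono _) (mono _)
    · exact (hS.cl _ hx).symm.mono (mono _) (mono _)
  · intro z hz
    rw [mem_QQ] at hz ⊢
    obtain ⟨zy, zx, z3, z1, hz⟩ := hz
    unfold cc
    split_ifs with e1 e3
    · exact ⟨nq3y, nq3x, n3, fun e => h13' e.symm, hq3⟩
    · exact ⟨nq1y, nq1x, nq13, n1, hq1⟩
    · refine ⟨qn _ hz _ hx zx, ?_, ?_, ?_, hI.cm _ hz⟩
      · intro e; apply zy; rw [← e, hI.cc _ hz]
      · intro e; apply e3; rw [← e, hI.cc _ hz]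
      · intro e; apply e1; rw [← e, hI.cc _ hz]
  · intro z hz
    rw [mem_QQ] at hz
    obtain ⟨zy, zx, z3, z1, hz⟩ := hz
    unfold cc
    split_ifs with e1 e3
    · rw [e1]; exact Ne.symm nq
    · rw [e3]; exact nq
    · exact hI.cn _ hz
  · intro z hz
    rw [mem_QQ] at hz
    obtain ⟨zy, zx, z3, z1, hz⟩ := hz
    by_cases e1 : z = c p1
    · have : cc c (c p1) (c p3) z = c p3 := by unfold cc; rw [if_pos e1]
      rw [this]
      unfold cc
      rw [if_neg (Ne.symm nq), if_pos rfl, e1]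
    · by_cases e3 : z = c p3
      · have : cc c (c p1) (c p3) z = c p1 := by unfold cc; rw [if_neg e1, if_pos e3]
        rw [this]
        unfold cc
        rw [if_pos rfl, e3]
      · have : cc c (c p1) (c p3) z = c z := by unfold cc; rw [if_neg e1, if_neg e3]
        rw [this]
        unfold cc
        rw [if_neg, if_neg, hI.cc _ hz]
        · intro e; exact z3 (inj _ hz _ h3 e)
        · intro e; exact z1 (inj _ hz _ h1 e)
  · intro z hz
    rw [mem_QQ] at hz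
    rw [mem_EE]
    exact ⟨hz.2.2.1, hz.2.2.2.1, hz.2.2.2.2⟩
  · intro z hz
    rw [mem_QQ] at hz
    obtain ⟨zy, zx, z3, z1, hz⟩ := hz
    have l13 : Lk G (B p1) (B p3) := by
      rcases nxt_pair h1 h3 h13 hs with h | h
      · exact hS.cir.lk _ _ h
      · exact (hS.cir.lk _ _ h).symm
    by_cases e1 : z = c p1
    · have : cc c (c p1) (c p3) z = c p3 := by unfold cc; rw [if_pos e1]
      rw [this, e1, b1, b3]
      exact l13.mono Set.subset_union_right Set.subset_union_right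
    · by_cases e3 : z = c p3
      · have : cc c (c p1) (c p3) z = c p1 := by unfold cc; rw [if_neg e1, if_pos e3]
        rw [this, e3, b1, b3]
        exact l13.symm.mono Set.subset_union_right Set.subset_union_right
      · have : cc c (c p1) (c p3) z = c z := by unfold cc; rw [if_neg e1, if_neg e3]
        rw [this]
        exact (hS.cl z hz).mono (mono z) (mono _)

lemma iff4 {p q r s : Prop} : ((p ↔ q) ↔ ¬ (r ↔ s)) ↔ ¬ ((p ↔ r) ↔ (q ↔ s)) := by
  by_cases hp : p <;> by_cases hq : q <;> by_cases hr : r <;> by_cases hs : s <;>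
    simp [hp, hq, hr, hs]

/-- side of `z` with respect to the chord `(a,b)` -/
def Sd (a b z : ℕ) : Prop := (a < z) ↔ (b < z)

lemma cr_iff {u v a b : ℕ} : Cr u v a b ↔ ¬ (Sd a b u ↔ Sd a b v) := iff4

lemma cr_sum {p1 q1 p3 q3 a b : ℕ} (h1 : ¬ Cr p1 q1 a b) (h2 : Cr p3 q3 a b)
    (h3 : ¬ Cr p1 p3 a b) : Cr q1 q3 a b := by
  rw [cr_iff] at *
  by_cases g1 : Sd a b p1 <;> by_cases g2 : Sd a b p3 <;> by_cases g3 : Sd a b q1 <;>
    by_cases g4 : Sd a b q3 <;> simp_all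

lemma cr_sum' {p1 q1 p3 q3 a b : ℕ} (h1 : Cr p1 q1 a b) (h2 : ¬ Cr p3 q3 a b)
    (h3 : ¬ Cr p1 p3 a b) : Cr q1 q3 a b := by
  rw [cr_iff] at *
  by_cases g1 : Sd a b p1 <;> by_cases g2 : Sd a b p3 <;> by_cases g3 : Sd a b q1 <;>
    by_cases g4 : Sd a b q3 <;> simp_all

lemma cr_swap {u v a b : ℕ} : Cr u v a b ↔ Cr v u a b := by
  rw [cr_iff, cr_iff]
  by_cases g1 : Sd a b u <;> by_cases g2 : Sd a b v <;> simp_all

lemma same_side {x y u v a b : ℕ} (h1 : (x < u ∧ u < y) ↔ (x < v ∧ v < y))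
    (h2 : (x < a ∧ a < y) ↔ (x < b ∧ b < y)) (h : Cr u v a b) :
    (x < u ∧ u < y) ↔ (x < a ∧ a < y) := by
  by_contra hn
  have hc : ((x < u ∧ u < y) ∧ ¬ (x < a ∧ a < y)) ∨ (¬ (x < u ∧ u < y) ∧ (x < a ∧ a < y)) := by
    by_cases g1 : (x < u ∧ u < y) <;> by_cases g2 : (x < a ∧ a < y)
    · exact absurd ⟨fun _ => g2, fun _ => g1⟩ hn
    · exact Or.inl ⟨g1, g2⟩
    · exact Or.inr ⟨g1, g2⟩
    · exact absurd ⟨fun g => absurd g g1, fun g => absurd g g2⟩ hn
  rcases hc with ⟨g1, g2⟩ | ⟨g1, g2⟩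
  · have g3 := h1.1 g1
    have g4 : ¬ (x < b ∧ b < y) := fun g => g2 (h2.2 g)
    have e1 : (a < u) ↔ (a < v) := by omega
    have e2 : (b < u) ↔ (b < v) := by omega
    exact (h.1 e1) e2
  · have g3 := h2.1 g2
    have g4 : ¬ (x < v ∧ v < y) := fun g => g1 (h1.2 g)
    rw [cr_iff] at h
    apply h
    have e1 : Sd a b u := by unfold Sd; omega
    have e2 : Sd a b v := by unfold Sd; omega
    exact ⟨fun _ => e2, fun _ => e1⟩

lemma cross_side {x y u v : ℕ} (h : Cr x y u v) (h1 : u ≠ x) (h2 : u ≠ y) (h3 : v ≠ x)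
    (h4 : v ≠ y) (hxy : x < y) : (x < u ∧ u < y) ↔ ¬ (x < v ∧ v < y) := by
  unfold Cr at h
  omega

lemma cross_side' {x y u v : ℕ} (h : ¬ Cr x y u v) (h1 : u ≠ x) (h2 : u ≠ y) (h3 : v ≠ x)
    (h4 : v ≠ y) : (x < u ∧ u < y) ↔ (x < v ∧ v < y) := by
  unfold Cr at h
  omega

lemma no_sep {x y p1 p3 a b : ℕ} (T : Prop) (h1 : (x < p1 ∧ p1 < y) ↔ ¬ T)
    (h3 : (x < p3 ∧ p3 < y) ↔ ¬ T) (ha : (x < a ∧ a < y) ↔ T) (hb : (x < b ∧ b < y) ↔ T) :
    ¬ Cr p1 p3 a b := by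
  intro h
  by_cases hT : T
  · have g1 := ha.2 hT
    have g2 := hb.2 hT
    have g3 : ¬ (x < p1 ∧ p1 < y) := fun g => h1.1 g hT
    have g4 : ¬ (x < p3 ∧ p3 < y) := fun g => h3.1 g hT
    rw [cr_iff] at h
    apply h
    have e1 : Sd a b p1 := by unfold Sd; omega
    have e2 : Sd a b p3 := by unfold Sd; omega
    exact ⟨fun _ => e2, fun _ => e1⟩
  · have g1 := h1.2 hT
    have g2 := h3.2 hT
    have g3 : ¬ (x < a ∧ a < y) := fun g => hT (ha.1 g)
    have g4 : ¬ (x < b ∧ b < y) := fun g => hT (hb.1 g)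
    have e1 : (a < p1) ↔ (a < p3) := by omega
    have e2 : (b < p1) ↔ (b < p3) := by omega
    exact (h.1 e1) e2

lemma pick {c : ℕ → ℕ} {u x y : ℕ} (T : Prop) (hcc : c (c u) = u)
    (h : (x < u ∧ u < y) ↔ ¬ (x < c u ∧ c u < y)) (h1 : u ≠ x) (h2 : u ≠ y) (h3 : c u ≠ x)
    (h4 : c u ≠ y) : ∃ p1, (p1 = u ∧ c p1 = c u ∨ p1 = c u ∧ c p1 = u) ∧
      ((x < p1 ∧ p1 < y) ↔ ¬ T) ∧
      ((x < c p1 ∧ c p1 < y) ↔ T) ∧ p1 ≠ x ∧ p1 ≠ y ∧ c p1 ≠ x ∧ c p1 ≠ y := by
  by_cases hT : T <;> by_cases hu : (x < u ∧ u < y)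
  · refine ⟨c u, Or.inr ⟨rfl, hcc⟩, ?_⟩
    rw [hcc]
    exact ⟨⟨fun g => absurd g (h.1 hu), fun g => absurd hT g⟩, ⟨fun _ => hT, fun _ => hu⟩,
      h3, h4, h1, h2⟩
  · refine ⟨u, Or.inl ⟨rfl, rfl⟩, ⟨fun g => absurd g hu, fun g => absurd hT g⟩,
      ⟨fun _ => hT, fun _ => ?_⟩, h1, h2, h3, h4⟩
    by_contra g
    exact hu (h.2 g)
  · exact ⟨u, Or.inl ⟨rfl, rfl⟩, ⟨fun _ => hT, fun _ => hu⟩,
      ⟨fun g => absurd g (h.1 hu), fun g => absurd g hT⟩, h1, h2, h3, h4⟩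
  · refine ⟨c u, Or.inr ⟨rfl, hcc⟩, ?_⟩
    rw [hcc]
    refine ⟨⟨fun _ => hT, fun _ => ?_⟩, ⟨fun g => absurd g hu, fun g => absurd g hT⟩,
      h3, h4, h1, h2⟩
    by_contra g
    exact hu (h.2 g)

lemma step {G : SimpleGraph V} {m : ℕ} (hm5 : 5 ≤ m) (hm : Odd m) (hH : Has G m) :
    ∃ m', m' < m ∧ Odd m' ∧ Has G m' := by
  classical
  obtain ⟨P, B, c, Q, k, hS, hk, h0, hlow⟩ := hH
  by_contra hcon
  have hI := hS.inv
  have hq : ∀ i, i ≤ m → k i ∈ Q := by
    intro i hi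
    by_cases h : i < m
    · exact (hk i h).1
    · have : i = (m - 1) + 1 := by omega
      rw [this]
      exact (hk (m - 1) (by omega)).2.1
  have ne : ∀ i d, i + d ≤ m → 0 < d → d < m → k (i + d) ≠ k i := fun i d a b c' e =>
    hcon (split1 hS m hm k hk h0 i d a b c' e)
  have nc : ∀ i d, i + d ≤ m → 2 ≤ d → d + 2 ≤ m → ¬ Crs c Q (k i) (k (i + d)) :=
    fun i d a b c' e => hcon (split2 hS m hm k hk h0 i d a b c' e)
  have low : ∀ i j, i ≤ m → j ≤ m → k i ≠ c (k j) := by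
    intro i j hi hj e
    have e' : c (k i) = k j := by rw [e, hI.cc _ (hq j hj)]
    have := hlow i hi
    have := hlow j hj
    omega
  have cinj : ∀ i j, i ≤ m → j ≤ m → k i ≠ k j → c (k i) ≠ c (k j) := by
    intro i j hi hj e e'
    apply e
    rw [← hI.cc _ (hq i hi), e', hI.cc _ (hq j hj)]
  let E : Finset ℕ := (Finset.range m).image k ∪ (Finset.range m).image (fun i => c (k i))
  have hE : ∀ z, z ∈ E ↔ ∃ i, i < m ∧ (z = k i ∨ z = c (k i)) := by
    intro z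
    simp only [E, Finset.mem_union, Finset.mem_image, Finset.mem_range]
    constructor
    · rintro (⟨i, hi, e⟩ | ⟨i, hi, e⟩)
      · exact ⟨i, hi, Or.inl e.symm⟩
      · exact ⟨i, hi, Or.inr e.symm⟩
    · rintro ⟨i, hi, e | e⟩
      · exact Or.inl ⟨i, hi, e.symm⟩
      · exact Or.inr ⟨i, hi, e.symm⟩
  have hEQ : E ⊆ Q := by
    intro z hz
    obtain ⟨i, hi, e | e⟩ := (hE z).1 hz
    · rw [e]; exact hq i hi.le
    · rw [e]; exact hI.cm _ (hq i hi.le)
  obtain ⟨B1, hC1, hB1⟩ := Cir.restrict E _ P B rfl (hEQ.trans hS.sub) hS.cir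
  have hSE : Sys G E B1 c E := by
    refine ⟨hC1, ⟨?_, fun z hz => hI.cn z (hEQ hz), fun z hz => hI.cc z (hEQ hz)⟩, subset_rfl,
      fun z hz => (hS.cl z (hEQ hz)).mono (hB1 _) (hB1 _)⟩
    intro z hz
    obtain ⟨i, hi, e | e⟩ := (hE z).1 hz
    · rw [e]; exact (hE _).2 ⟨i, hi, Or.inr rfl⟩
    · rw [e, hI.cc _ (hq i hi.le)]; exact (hE _).2 ⟨i, hi, Or.inl rfl⟩
  obtain ⟨x, hxdef⟩ : ∃ x, x = k 1 := ⟨_, rfl⟩
  obtain ⟨y, hydef⟩ : ∃ y, y = c x := ⟨_, rfl⟩
  have hxy : x < y := by rw [hydef, hxdef]; exact hlow 1 (by omega)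
  have hyx : c (k 1) = y := by rw [hydef, hxdef]
  -- sides
  have side : ∀ i, 3 ≤ i → i < m → k i ≠ x ∧ k i ≠ y ∧ c (k i) ≠ x ∧ c (k i) ≠ y ∧
      ((x < k i ∧ k i < y) ↔ (x < c (k i) ∧ c (k i) < y)) := by
    intro i hi him
    have a1 : k i ≠ k 1 := by
      have := ne 1 (i - 1) (by omega) (by omega) (by omega)
      rwa [show 1 + (i - 1) = i by omega] at this
    have a2 : k i ≠ c (k 1) := low i 1 (by omega) (by omega)
    have a3 : k 1 ≠ c (k i) := low 1 i (by omega) (by omega)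
    have a4 := cinj i 1 (by omega) (by omega) a1
    have a5 := nc 1 (i - 1) (by omega) (by omega) (by omega)
    rw [show 1 + (i - 1) = i by omega] at a5
    have a6 : ¬ Cr (k 1) (c (k 1)) (k i) (c (k i)) := fun h =>
      a5 ⟨hq 1 (by omega), hq i (by omega), a1, a2, h⟩
    rw [hyx] at a2 a4 a6
    rw [← hxdef] at a1 a3 a6
    exact ⟨a1, a2, Ne.symm a3, a4, cross_side' a6 a1 a2 (Ne.symm a3) a4⟩
  have chain : ∀ i, 3 ≤ i → i < m → ((x < k i ∧ k i < y) ↔ (x < k 3 ∧ k 3 < y)) := by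
    intro i hi
    induction i, hi using Nat.le_induction with
    | base => intro _; exact Iff.rfl
    | succ i hi ih =>
      intro him
      rw [← ih (by omega)]
      obtain ⟨a1, a2, a3, a4, a5⟩ := side i hi (by omega)
      obtain ⟨b1, b2, b3, b4, b5⟩ := side (i + 1) (by omega) him
      obtain ⟨-, -, c1, c2, c3⟩ := hk i (by omega)
      exact (same_side a5 b5 c3).symm
  have hp1 : ∃ p1, (p1 = k 0 ∧ c p1 = c (k 0) ∨ p1 = c (k 0) ∧ c p1 = k 0) ∧
      ((x < p1 ∧ p1 < y) ↔ ¬ (x < k 3 ∧ k 3 < y)) ∧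
      ((x < c p1 ∧ c p1 < y) ↔ (x < k 3 ∧ k 3 < y)) ∧ p1 ≠ x ∧ p1 ≠ y ∧ c p1 ≠ x ∧ c p1 ≠ y := by
    obtain ⟨a1, a2, a3, a4, a5⟩ := (hk 0 (by omega)).symm hI
    rw [show (0 : ℕ) + 1 = 1 from rfl] at a3 a4 a5
    have a6 : k 1 ≠ c (k 0) := low 1 0 (by omega) (by omega)
    have a7 := cinj 0 1 (by omega) (by omega) a3
    rw [hyx] at a4 a5 a7
    rw [← hxdef] at a3 a5 a6
    exact pick _ (hI.cc _ (hq 0 (by omega))) (cross_side a5 a3 a4 (Ne.symm a6) a7 hxy)
      a3 a4 (Ne.symm a6) a7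
  have hp3 : ∃ p3, (p3 = k 2 ∧ c p3 = c (k 2) ∨ p3 = c (k 2) ∧ c p3 = k 2) ∧
      ((x < p3 ∧ p3 < y) ↔ ¬ (x < k 3 ∧ k 3 < y)) ∧
      ((x < c p3 ∧ c p3 < y) ↔ (x < k 3 ∧ k 3 < y)) ∧ p3 ≠ x ∧ p3 ≠ y ∧ c p3 ≠ x ∧ c p3 ≠ y := by
    obtain ⟨a1, a2, a3, a4, a5⟩ := hk 1 (by omega)
    rw [show (1 : ℕ) + 1 = 2 from rfl] at a3 a4 a5
    have a6 : k 1 ≠ c (k 2) := low 1 2 (by omega) (by omega)
    have a7 := cinj 2 1 (by omega) (by omega) a3
    rw [hyx] at a4 a5 a7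
    rw [← hxdef] at a3 a5 a6
    exact pick _ (hI.cc _ (hq 2 (by omega))) (cross_side a5 a3 a4 (Ne.symm a6) a7 hxy)
      a3 a4 (Ne.symm a6) a7
  obtain ⟨p1, hp1, s1, t1, n1x, n1y, n1x', n1y'⟩ := hp1
  obtain ⟨p3, hp3, s3, t3, n3x, n3y, n3x', n3y'⟩ := hp3
  have mx : x ∈ E := (hE _).2 ⟨1, by omega, Or.inl hxdef⟩
  have mp1 : p1 ∈ E := by
    rcases hp1 with ⟨h, -⟩ | ⟨h, -⟩
    · exact (hE _).2 ⟨0, by omega, Or.inl h⟩
    · exact (hE _).2 ⟨0, by omega, Or.inr h⟩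
  have mp3 : p3 ∈ E := by
    rcases hp3 with ⟨h, -⟩ | ⟨h, -⟩
    · exact (hE _).2 ⟨2, by omega, Or.inl h⟩
    · exact (hE _).2 ⟨2, by omega, Or.inr h⟩
  -- all ends differ
  have ne20 : k 2 ≠ k 0 := by
    have := ne 0 2 (by omega) (by omega) (by omega)
    rwa [show 0 + 2 = 2 from rfl] at this
  have d1 : p1 ≠ p3 ∧ p1 ≠ c p3 := by
    have b1 := low 0 2 (by omega) (by omega)
    have b2 := low 2 0 (by omega) (by omega)
    have b3 := cinj 2 0 (by omega) (by omega) ne20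
    rcases hp1 with ⟨h, h'⟩ | ⟨h, h'⟩ <;> rcases hp3 with ⟨g, g'⟩ | ⟨g, g'⟩ <;>
      rw [h, g', g]
    · exact ⟨Ne.symm ne20, b1⟩
    · exact ⟨b1, Ne.symm ne20⟩
    · exact ⟨Ne.symm b2, Ne.symm b3⟩
    · exact ⟨Ne.symm b3, Ne.symm b2⟩
  have far : ∀ i, 3 ≤ i → i < m → k i ≠ p1 ∧ k i ≠ p3 ∧ k i ≠ c p1 ∧ k i ≠ c p3 := by
    intro i hi him
    have b1 : k i ≠ k 0 := by
      have := ne 0 i (by omega) (by omega) (by omega)
      rwa [Nat.zero_add] at this
    have b2 : k i ≠ k 2 := by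
      have := ne 2 (i - 2) (by omega) (by omega) (by omega)
      rwa [show 2 + (i - 2) = i by omega] at this
    have b3 := low i 0 (by omega) (by omega)
    have b4 := low i 2 (by omega) (by omega)
    refine ⟨?_, ?_, ?_, ?_⟩
    · rcases hp1 with ⟨h, h'⟩ | ⟨h, h'⟩ <;> rw [h] <;> assumption
    · rcases hp3 with ⟨h, h'⟩ | ⟨h, h'⟩ <;> rw [h] <;> assumption
    · rcases hp1 with ⟨h, h'⟩ | ⟨h, h'⟩ <;> rw [h'] <;> assumption
    · rcases hp3 with ⟨h, h'⟩ | ⟨h, h'⟩ <;> rw [h'] <;> assumption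
  have hkey : ∀ z ∈ E, z = x ∨ z = y ∨ z = p1 ∨ z = p3 ∨
      (z ≠ x ∧ z ≠ y ∧ ((x < z ∧ z < y) ↔ (x < k 3 ∧ k 3 < y))) := by
    intro z hz
    obtain ⟨i, hi, h⟩ := (hE z).1 hz
    by_cases i0 : i = 0
    · subst i0
      rcases hp1 with ⟨g, g'⟩ | ⟨g, g'⟩ <;> rcases h with h | h
      · right; right; left; rw [h, g]
      · right; right; right; right
        rw [h, ← g']; exact ⟨n1x', n1y', t1⟩
      · right; right; right; right
        rw [h, ← g']; exact ⟨n1x', n1y', t1⟩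
      · right; right; left; rw [h, g]
    by_cases i1 : i = 1
    · subst i1
      rcases h with h | h
      · left; rw [h, hxdef]
      · right; left; rw [h, hyx]
    by_cases i2 : i = 2
    · subst i2
      rcases hp3 with ⟨g, g'⟩ | ⟨g, g'⟩ <;> rcases h with h | h
      · right; right; right; left; rw [h, g]
      · right; right; right; right
        rw [h, ← g']; exact ⟨n3x', n3y', t3⟩
      · right; right; right; right
        rw [h, ← g']; exact ⟨n3x', n3y', t3⟩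
      · right; right; right; left; rw [h, g]
    right; right; right; right
    obtain ⟨a1, a2, a3, a4, a5⟩ := side i (by omega) hi
    have a6 := chain i (by omega) hi
    rcases h with h | h
    · rw [h]; exact ⟨a1, a2, a6⟩
    · rw [h]; exact ⟨a3, a4, a5.symm.trans a6⟩
  have hside : SideP E x (c x) p1 p3 := by
    rw [← hydef]
    by_cases h3 : x < k 3 ∧ k 3 < y
    · right
      intro z hz
      constructor
      · intro h
        rcases hkey z hz with g | g | g | g | ⟨g1, g2, g3⟩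
        · omega
        · omega
        · exact Or.inl g
        · exact Or.inr g
        · omega
      · rintro (rfl | rfl) <;> omega
    · left
      intro z hz
      constructor
      · intro h
        rcases hkey z hz with g | g | g | g | ⟨g1, g2, g3⟩
        · omega
        · omega
        · exact Or.inl g
        · exact Or.inr g
        · omega
      · rintro (rfl | rfl) <;> omega
  obtain ⟨B2, hS2⟩ := core hSE mx mp1 mp3 (by rw [← hydef]; exact hxy) d1.1 d1.2 n1x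
    (by rw [← hydef]; exact n1y) n3x (by rw [← hydef]; exact n3y) hside
  -- crossings with the new chord
  have nosep : ∀ i, 3 ≤ i → i < m → ¬ Cr p1 p3 (k i) (c (k i)) := by
    intro i hi him
    obtain ⟨a1, a2, a3, a4, a5⟩ := side i hi him
    have a6 := chain i hi him
    exact no_sep _ s1 s3 a6 (a5.symm.trans a6)
  have crL : Cr (c p1) (c p3) (k 3) (c (k 3)) := by
    obtain ⟨-, -, -, -, a⟩ := hk 2 (by omega)
    rw [show (2 : ℕ) + 1 = 3 from rfl] at a
    have f := far 3 (by omega) (by omega)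
    have b : ¬ Crs c Q (k 0) (k 3) := nc 0 3 (by omega) (by omega) (by omega)
    have b' : ¬ Cr (k 0) (c (k 0)) (k 3) (c (k 3)) := fun h => b ⟨hq 0 (by omega),
      hq 3 (by omega), by
        have := ne 0 3 (by omega) (by omega) (by omega)
        rwa [Nat.zero_add] at this, low 3 0 (by omega) (by omega), h⟩
    refine cr_sum (p1 := p1) (p3 := p3) ?_ ?_ (nosep 3 (by omega) (by omega))
    · rcases hp1 with ⟨g, g'⟩ | ⟨g, g'⟩ <;> rw [g', g]
      · exact b'
      · exact fun h => b' (cr_swap.1 h)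
    · rcases hp3 with ⟨g, g'⟩ | ⟨g, g'⟩ <;> rw [g', g]
      · exact a
      · exact cr_swap.1 a
  have crR : Cr (c p1) (c p3) (k (m - 1)) (c (k (m - 1))) := by
    have a0 := (hk (m - 1) (by omega)).symm hI
    rw [show m - 1 + 1 = m by omega, h0] at a0
    obtain ⟨-, -, -, -, a⟩ := a0
    have b : ¬ Crs c Q (k 2) (k (m - 1)) := by
      have := nc 2 (m - 3) (by omega) (by omega) (by omega)
      rwa [show 2 + (m - 3) = m - 1 by omega] at this
    have b' : ¬ Cr (k 2) (c (k 2)) (k (m - 1)) (c (k (m - 1))) := fun h => b ⟨hq 2 (by omega),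
      hq (m - 1) (by omega), by
        have := ne 2 (m - 3) (by omega) (by omega) (by omega)
        rwa [show 2 + (m - 3) = m - 1 by omega] at this, low (m - 1) 2 (by omega) (by omega), h⟩
    refine cr_sum' (p1 := p1) (p3 := p3) ?_ ?_ (nosep (m - 1) (by omega) (by omega))
    · rcases hp1 with ⟨g, g'⟩ | ⟨g, g'⟩ <;> rw [g', g]
      · exact a
      · exact cr_swap.1 a
    · rcases hp3 with ⟨g, g'⟩ | ⟨g, g'⟩ <;> rw [g', g]
      · exact b'
      · exact fun h => b' (cr_swap.1 h)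
  have c2old : ∀ i, 3 ≤ i → i < m → cc c (c p1) (c p3) (k i) = c (k i) := by
    intro i hi him
    have f := far i hi him
    unfold cc
    rw [if_neg f.2.2.1, if_neg f.2.2.2]
  have c2new : cc c (c p1) (c p3) (c p1) = c p3 := by
    unfold cc; rw [if_pos rfl]
  have m2old : ∀ i, 3 ≤ i → i < m → k i ∈ QQ E p1 p3 x (c x) := by
    intro i hi him
    have f := far i hi him
    obtain ⟨a1, a2, a3, a4, a5⟩ := side i hi him
    rw [mem_QQ]
    exact ⟨by rw [← hydef]; exact a2, a1, f.2.1, f.1, (hE _).2 ⟨i, him, Or.inl rfl⟩⟩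
  have m2new : c p1 ∈ QQ E p1 p3 x (c x) := by
    rw [mem_QQ]
    refine ⟨by rw [← hydef]; exact n1y', n1x', ?_, hSE.inv.cn _ mp1, hSE.inv.cm _ mp1⟩
    intro e
    apply d1.2
    rw [← e, hSE.inv.cc _ mp1]
  have L : Crs (cc c (c p1) (c p3)) (QQ E p1 p3 x (c x)) (c p1) (k 3) := by
    have f := far 3 (by omega) (by omega)
    refine ⟨m2new, m2old 3 (by omega) (by omega), f.2.2.1, ?_, ?_⟩
    · rw [c2new]; exact f.2.2.2
    · rw [c2new, c2old 3 (by omega) (by omega)]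
      exact crL
  have R : Crs (cc c (c p1) (c p3)) (QQ E p1 p3 x (c x)) (c p1) (k (m - 1)) := by
    have f := far (m - 1) (by omega) (by omega)
    refine ⟨m2new, m2old (m - 1) (by omega) (by omega), f.2.2.1, ?_, ?_⟩
    · rw [c2new]; exact f.2.2.2
    · rw [c2new, c2old (m - 1) (by omega) (by omega)]
      exact crR
  have M : ∀ i, 3 ≤ i → i + 1 < m →
      Crs (cc c (c p1) (c p3)) (QQ E p1 p3 x (c x)) (k i) (k (i + 1)) := by
    intro i hi him
    obtain ⟨-, -, a1, a2, a3⟩ := hk i (by omega)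
    refine ⟨m2old i hi (by omega), m2old (i + 1) (by omega) him, a1, ?_, ?_⟩
    · rw [c2old i hi (by omega)]; exact a2
    · rw [c2old i hi (by omega), c2old (i + 1) (by omega) him]
      exact a3
  apply hcon
  refine ⟨m - 2, by omega, Nat.Odd.sub_even (by omega) hm (by decide), has_of_walk hS2 (m - 2)
    (by omega) (fun t => if t = 0 ∨ t = m - 2 then c p1 else k (t + 2)) ?_ ?_⟩
  · intro t ht
    show Crs (cc c (c p1) (c p3)) (QQ E p1 p3 x (c x))
      (if t = 0 ∨ t = m - 2 then c p1 else k (t + 2))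
      (if t + 1 = 0 ∨ t + 1 = m - 2 then c p1 else k (t + 1 + 2))
    by_cases t0 : t = 0
    · subst t0
      rw [if_pos (Or.inl rfl), if_neg (by omega)]
      exact L
    · rw [if_neg (by omega)]
      by_cases t1 : t + 1 = m - 2
      · rw [if_pos (Or.inr t1), show t + 2 = m - 1 by omega]
        exact R.symm hS2.inv
      · rw [if_neg (by omega)]
        exact M (t + 2) (by omega) (by omega)
  · show (if m - 2 = 0 ∨ m - 2 = m - 2 then c p1 else k (m - 2 + 2)) =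
      (if 0 = 0 ∨ 0 = m - 2 then c p1 else k (0 + 2))
    rw [if_pos (Or.inr rfl), if_pos (Or.inl rfl)]

theorem odd_has {G : SimpleGraph V} : ∀ (m : ℕ), Odd m → Has G m → HasK33 G := by
  intro m
  induction m using Nat.strong_induction_on with
  | _ m ih =>
    intro hm hH
    by_cases h5 : 5 ≤ m
    · obtain ⟨m', h1, h2, h3⟩ := step h5 hm hH
      exact ih m' h1 h2 h3
    · obtain ⟨P, B, c, Q, k, hS, hk, h0, hlow⟩ := hH
      obtain ⟨r, hr⟩ := hm
      have : m = 1 ∨ m = 3 := by omega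
      rcases this with h | h
      · subst h
        have := hk 0 (by omega)
        rw [show (0 : ℕ) + 1 = 1 from rfl, h0] at this
        exact absurd rfl this.2.2.1
      · subst h
        have a0 := hk 0 (by omega)
        have a1 := hk 1 (by omega)
        have a2 := hk 2 (by omega)
        rw [show (2 : ℕ) + 1 = 3 from rfl, h0] at a2
        exact base3 hS (hlow 0 (by omega)) (hlow 1 (by omega)) (hlow 2 (by omega)) a0 a1
          (a2.symm hS.inv)

end Pool.Agent.Helper95.CK
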