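import Pool.Agent.Helper95.CK.Plane
import Pool.Agent.Helper95.CK.Reduce

/-!
Kuratowski for Hamiltonian cubic graphs, part 6: a cubic graph with a Hamilton cycle and without
a K33 minor has a planar rotation system.
-/

set_option autoImplicit false

namespace Pool.Agent.Helper95.CK

open Pool.Agent.Helper17.CT

variable {V : Type} {G : SimpleGraph V}

lemma third_nb (h3 : ∀ v : V, (G.neighborSet v).ncard = 3) {v a b : V} (ha : G.Adj v a)
    (hb : G.Adj v b) (hab : a ≠ b) :
    ∃ c, G.Adj v c ∧ a ≠ c ∧ b ≠ c ∧ ∀ w, G.Adj v w → w = a ∨ w = b ∨ w = c := by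
  obtain ⟨x, y, z, hxy, hxz, hyz, hs⟩ := Set.ncard_eq_three.1 (h3 v)
  have key : ∀ w, G.Adj v w ↔ (w = x ∨ w = y ∨ w = z) := by
    intro w
    rw [← SimpleGraph.mem_neighborSet, hs]
    simp only [Set.mem_insert_iff, Set.mem_singleton_iff]
  have h1 := (key a).1 ha
  have h2 := (key b).1 hb
  rcases h1 with rfl | rfl | rfl <;> rcases h2 with rfl | rfl | rfl
  · exact absurd rfl hab
  · exact ⟨z, (key z).2 (by tauto), by tauto, by tauto, fun w hw => by have := (key w).1 hw; tauto⟩
  · exact ⟨y, (key y).2 (by tauto), by tauto, by tauto, fun w hw => by have := (key w).1 hw; tauto⟩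
  · exact ⟨z, (key z).2 (by tauto), by tauto, by tauto, fun w hw => by have := (key w).1 hw; tauto⟩
  · exact absurd rfl hab
  · exact ⟨x, (key x).2 (by tauto), by tauto, by tauto, fun w hw => by have := (key w).1 hw; tauto⟩
  · exact ⟨y, (key y).2 (by tauto), by tauto, by tauto, fun w hw => by have := (key w).1 hw; tauto⟩
  · exact ⟨x, (key x).2 (by tauto), by tauto, by tauto, fun w hw => by have := (key w).1 hw; tauto⟩
  · exact absurd rfl hab

lemma exists_hc (h3 : ∀ v : V, (G.neighborSet v).ncard = 3) (n : ℕ) (e : ℕ → V) (hn : 3 ≤ n)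
    (inj : ∀ i j, i < n → j < n → e i = e j → i = j) (sur : ∀ v, ∃ i, i < n ∧ e i = v)
    (adj : ∀ i, i < n → G.Adj (e i) (e (i + 1))) (en : e n = e 0) :
    ∃ H : Hc G, H.n = n ∧ (∀ i, i < n → H.pos (e i) = i) ∧ ∀ v, e (H.pos v) = v := by
  choose pos hp using sur
  have pe : ∀ i, i < n → pos (e i) = i := fun i hi => inj _ _ (hp _).1 hi (hp _).2
  let nx : V → V := fun v => e (pos v + 1)
  let pv : V → V := fun v => e (if pos v = 0 then n - 1 else pos v - 1)
  have nxpv : ∀ v, nx (pv v) = v := by
    intro v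
    have h1 := (hp v).1
    show e (pos (e (if pos v = 0 then n - 1 else pos v - 1)) + 1) = v
    rw [pe _ (by split_ifs <;> omega)]
    split_ifs with h
    · rw [show n - 1 + 1 = n by omega, en, ← h]; exact (hp v).2
    · rw [show pos v - 1 + 1 = pos v by omega]; exact (hp v).2
  have pnx : ∀ v, pos (nx v) = pos v + 1 ∨ (pos (nx v) = 0 ∧ pos v + 1 = n) := by
    intro v
    have h1 := (hp v).1
    by_cases h : pos v + 1 < n
    · left; exact pe _ h
    · right
      have h2 : pos v + 1 = n := by omega
      refine ⟨?_, h2⟩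
      show pos (e (pos v + 1)) = 0
      rw [h2, en]
      exact pe 0 (by omega)
  have pvnx : ∀ v, pv (nx v) = v := by
    intro v
    have h1 := (hp v).1
    show e (if pos (nx v) = 0 then n - 1 else pos (nx v) - 1) = v
    rcases pnx v with h | ⟨h, h'⟩
    · rw [h, if_neg (by omega), Nat.add_sub_cancel]; exact (hp v).2
    · rw [h, if_pos rfl, show n - 1 = pos v by omega]; exact (hp v).2
  have an : ∀ v, G.Adj v (nx v) := by
    intro v
    have := adj (pos v) (hp v).1
    rw [(hp v).2] at this
    exact this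
  have ap : ∀ v, G.Adj v (pv v) := by
    intro v
    have := an (pv v)
    rw [nxpv] at this
    exact this.symm
  have d1 : ∀ v, nx v ≠ pv v := by
    intro v h
    have h1 := (hp v).1
    have h2 : pos (nx v) = (if pos v = 0 then n - 1 else pos v - 1) := by
      rw [h]
      exact pe _ (by split_ifs <;> omega)
    rcases pnx v with h4 | ⟨h4, h4'⟩ <;> rw [h4] at h2 <;> split_ifs at h2 <;> omega
  choose c hc1 hc2 hc3 hc4 using fun v => third_nb h3 (an v) (ap v) (d1 v)
  have cc : ∀ v, c (c v) = v := by
    intro v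
    rcases hc4 (c v) v (hc1 v).symm with h | h | h
    · exfalso
      apply hc3 v
      have := pvnx (c v)
      rw [← h] at this
      exact this
    · exfalso
      apply hc2 v
      have := nxpv (c v)
      rw [← h] at this
      exact this
    · exact h.symm
  exact ⟨{ n := n, pos := pos, nx := nx, pv := pv, c := c, nxpv := nxpv, pvnx := pvnx, cc := cc,
           an := an, ac := hc1, d1 := d1, d2 := hc2, d3 := hc3, nb := hc4,
           pinj := fun v w h => by rw [← (hp v).2, h, (hp w).2]
           plt := fun v => (hp v).1, pnx := pnx }, rfl, pe, fun v => (hp v).2⟩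

open Classical in
/-- The crossing graph. -/
def Hc.X (H : Hc G) : SimpleGraph V where
  Adj v w := (w ≠ v ∧ w ≠ H.c v ∧ Cr (H.pos v) (H.pos (H.c v)) (H.pos w) (H.pos (H.c w))) ∧
    H.pos v < H.pos (H.c v) ∧ H.pos w < H.pos (H.c w)
  symm := ⟨by
    rintro v w ⟨⟨h1, h2, h3⟩, h4, h5⟩
    have n1 : H.pos v ≠ H.pos w := fun h => h1 (H.pinj h).symm
    have n2 : H.pos w ≠ H.pos (H.c v) := fun h => h2 (H.pinj h)
    have n3 : H.pos v ≠ H.pos (H.c w) := fun h => h2 (by rw [H.pinj h, H.cc])
    have n4 : H.pos (H.c v) ≠ H.pos (H.c w) := fun h => h1 (H.cinj (H.pinj h)).symm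
    refine ⟨⟨Ne.symm h1, fun h => h2 (by rw [h, H.cc]), ?_⟩, h5, h4⟩
    unfold Cr at *
    omega⟩
  loopless := ⟨by
    rintro v ⟨⟨h1, -⟩, -⟩
    exact h1 rfl⟩

theorem plane_or_minor [Fintype V] [DecidableEq V] (h3 : ∀ v : V, (G.neighborSet v).ncard = 3)
    (n : ℕ) (e : ℕ → V) (hn : 3 ≤ n)
    (inj : ∀ i j, i < n → j < n → e i = e j → i = j) (sur : ∀ v, ∃ i, i < n ∧ e i = v)
    (adj : ∀ i, i < n → G.Adj (e i) (e (i + 1))) (en : e n = e 0) (hK : ¬ HasK33 G) :
    ∃ (ρ : Equiv.Perm G.Dart) (h1 : ∀ d, (ρ d).fst = d.fst) (h2 : ∀ d, ρ d ≠ d),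
      (mapOf G ρ h1 h2 h3).Planar := by
  obtain ⟨H, hHn, pe, ep⟩ := exists_hc h3 n e hn inj sur adj en
  -- the system of branch sets
  let cN : ℕ → ℕ := fun i => H.pos (H.c (e i))
  have cNe : ∀ v, cN (H.pos v) = H.pos (H.c v) := fun v => by
    show H.pos (H.c (e (H.pos v))) = _
    rw [ep]
  have hS : Sys G (Finset.range n) (fun i => {e i}) cN (Finset.range n) := by
    refine ⟨⟨?_, ?_, ?_⟩, ⟨?_, ?_, ?_⟩, subset_rfl, ?_⟩
    · intro x _
      have : Unique ({e x} : Set V) := Set.uniqueSingleton (e x)
      have : Nonempty ({e x} : Set V) := ⟨⟨e x, rfl⟩⟩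
      exact ⟨fun a b => by rw [Subsingleton.elim a b]⟩
    · intro x hx y hy hxy
      rw [Finset.mem_range] at hx hy
      show Disjoint ({e x} : Set V) {e y}
      rw [Set.disjoint_singleton]
      exact fun h => hxy (inj _ _ hx hy h)
    · rintro x y ⟨hx, hy, h⟩
      rw [Finset.mem_range] at hx hy
      rcases h with ⟨h1, h2⟩ | ⟨h1, h2⟩
      · have : y = x + 1 := by
          by_contra hne
          exact h2 (x + 1) (Finset.mem_range.2 (by omega)) ⟨by omega, by omega⟩
        subst this
        exact ⟨e x, rfl, e (x + 1), rfl, adj x hx⟩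
      · have a1 := h2 0 (Finset.mem_range.2 (by omega))
        have a2 := h2 (n - 1) (Finset.mem_range.2 (by omega))
        have e1 : y = 0 := by omega
        have e2 : x + 1 = n := by omega
        have a3 := adj x hx
        rw [e2, en, ← e1] at a3
        exact ⟨e x, rfl, e y, rfl, a3⟩
    · intro x hx
      rw [Finset.mem_range] at hx ⊢
      rw [← hHn]
      exact H.plt _
    · intro x hx h
      rw [Finset.mem_range] at hx
      apply H.cn (e x)
      apply H.pinj
      rw [pe x hx]
      exact h
    · intro x hx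
      rw [Finset.mem_range] at hx
      show H.pos (H.c (e (H.pos (H.c (e x))))) = x
      rw [ep, H.cc, pe x hx]
    · intro x hx
      rw [Finset.mem_range] at hx
      refine ⟨e x, rfl, e (cN x), rfl, ?_⟩
      show G.Adj (e x) (e (H.pos (H.c (e x))))
      rw [ep]
      exact H.ac _
  by_cases hcol : H.X.Colorable 2
  · obtain ⟨C⟩ := hcol
    let lo : V → V := fun v => if H.pos v < H.pos (H.c v) then v else H.c v
    have hne : ∀ v, H.pos v ≠ H.pos (H.c v) := fun v h => H.cn v (H.pinj h).symm
    have hlo : ∀ v, lo v = v ∨ lo v = H.c v := by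
      intro v
      show (if H.pos v < H.pos (H.c v) then v else H.c v) = v ∨
        (if H.pos v < H.pos (H.c v) then v else H.c v) = H.c v
      split_ifs
      · exact Or.inl rfl
      · exact Or.inr rfl
    have hloc : ∀ v, lo (H.c v) = lo v := by
      intro v
      show (if H.pos (H.c v) < H.pos (H.c (H.c v)) then H.c v else H.c (H.c v)) =
        (if H.pos v < H.pos (H.c v) then v else H.c v)
      rw [H.cc]
      have := hne v
      by_cases h : H.pos v < H.pos (H.c v)
      · rw [if_neg (by omega), if_pos h]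
      · rw [if_pos (by omega), if_neg h]
    have hlolt : ∀ v, H.pos (lo v) < H.pos (H.c (lo v)) := by
      intro v
      show H.pos (if H.pos v < H.pos (H.c v) then v else H.c v) <
        H.pos (H.c (if H.pos v < H.pos (H.c v) then v else H.c v))
      have := hne v
      split_ifs with h
      · exact h
      · rw [H.cc]; omega
    have hβ : H.NoCr (fun v => decide (C (lo v) = 0)) := by
      refine ⟨fun v => ?_, fun v w hvw h1 h2 hc => ?_⟩
      · show decide (C (lo (H.c v)) = 0) = decide (C (lo v) = 0)
        rw [hloc]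
      · have n1 : H.pos v ≠ H.pos w := fun h => h1 (H.pinj h).symm
        have n2 : H.pos w ≠ H.pos (H.c v) := fun h => h2 (H.pinj h)
        have n3 : H.pos v ≠ H.pos (H.c w) := fun h => h2 (by rw [H.pinj h, H.cc])
        have n4 : H.pos (H.c v) ≠ H.pos (H.c w) := fun h => h1 (H.cinj (H.pinj h)).symm
        have hadj : H.X.Adj (lo v) (lo w) := by
          refine ⟨⟨?_, ?_, ?_⟩, hlolt v, hlolt w⟩
          · rcases hlo v with g | g <;> rcases hlo w with g' | g' <;> rw [g, g']
            · exact h1
            · exact fun h => h2 (by rw [← h, H.cc])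
            · exact h2
            · exact fun h => h1 (H.cinj h)
          · rcases hlo v with g | g <;> rcases hlo w with g' | g' <;> rw [g, g']
            · exact h2
            · exact fun h => h1 (H.cinj h)
            · rw [H.cc]; exact h1
            · rw [H.cc]; exact fun h => h2 (by rw [← h, H.cc])
          · rcases hlo v with g | g <;> rcases hlo w with g' | g' <;> rw [g, g'] <;>
              (try simp only [H.cc]) <;> unfold Cr at hc ⊢ <;> omega
        have hne' := C.valid hadj
        have hvw' : decide (C (lo v) = 0) = decide (C (lo w) = 0) := hvw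
        rw [decide_eq_decide] at hvw'
        apply hne'
        generalize C (lo v) = a at *
        generalize C (lo w) = b at *
        omega
    exact ⟨H.perm _, H.perm_fst _, H.perm_ne _, H.planar hβ h3⟩
  · exfalso
    rw [SimpleGraph.two_colorable_iff_forall_loop_even] at hcol
    push Not at hcol
    obtain ⟨u, w, hw⟩ := hcol
    rw [Nat.not_even_iff_odd] at hw
    have hpos : 0 < w.length := by
      obtain ⟨r, hr⟩ := hw
      omega
    apply hK
    apply odd_has w.length hw
    refine has_of_walk hS w.length hpos (fun i => H.pos (w.getVert i)) ?_ ?_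
    · intro i hi
      obtain ⟨⟨h1, h2, h3'⟩, -, -⟩ := w.adj_getVert_succ hi
      refine ⟨?_, ?_, ?_, ?_, ?_⟩
      · rw [Finset.mem_range, ← hHn]; exact H.plt _
      · rw [Finset.mem_range, ← hHn]; exact H.plt _
      · exact fun h => h1 (H.pinj h)
      · show H.pos _ ≠ cN (H.pos _)
        rw [cNe]
        exact fun h => h2 (H.pinj h)
      · show Cr (H.pos _) (cN (H.pos _)) (H.pos _) (cN (H.pos _))
        rw [cNe, cNe]
        exact h3'
    · show H.pos (w.getVert w.length) = H.pos (w.getVert 0)
      rw [w.getVert_length, w.getVert_zero]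

/-- **Kuratowski for Hamiltonian cubic graphs**: a cubic graph with a Hamilton cycle and without a
K33 minor has a planar rotation system. -/
theorem plane_of_minorfree [Fintype V] [DecidableEq V]
    (h3 : ∀ v : V, (G.neighborSet v).ncard = 3) {u : V} (p : G.Walk u u)
    (hp : p.IsHamiltonianCycle) (hK : ¬ HasK33 G) :
    ∃ (ρ : Equiv.Perm G.Dart) (h1 : ∀ d, (ρ d).fst = d.fst) (h2 : ∀ d, ρ d ≠ d),
      (mapOf G ρ h1 h2 h3).Planar := by
  have hc := hp.isCycle
  have h3l := hc.three_le_length
  refine plane_or_minor h3 p.length p.getVert h3l ?_ ?_ ?_ ?_ hK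
  · intro i j hi hj h
    exact hc.getVert_injOn' (show i ≤ p.length - 1 by omega) (show j ≤ p.length - 1 by omega) h
  · intro v
    obtain ⟨i, hi, hi'⟩ := SimpleGraph.Walk.mem_support_iff_exists_getVert.1 (hp.mem_support v)
    by_cases h : i = p.length
    · refine ⟨0, by omega, ?_⟩
      rw [← hi, h, p.getVert_length, p.getVert_zero]
    · exact ⟨i, by omega, hi⟩
  · intro i hi
    exact p.adj_getVert_succ hi
  · rw [p.getVert_length, p.getVert_zero]

end Pool.Agent.Helper95.CK
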