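import Pool.Agent.Helper95.CK.Circle

/-!
Kuratowski for Hamiltonian cubic graphs, part 2: odd closed sequences of crossing chords.
-/

set_option autoImplicit false

namespace Pool.Agent.Helper95.CK

variable {V : Type}

/-- The chord `(u,v)` crosses the chord `(a,b)` (all four different). -/
def Cr (u v a b : ℕ) : Prop := ((a < u) ↔ (a < v)) ↔ ¬ ((b < u) ↔ (b < v))

/-- an involution without fixed points on `Q` -/
structure Inv (c : ℕ → ℕ) (Q : Finset ℕ) : Prop where
  cm : ∀ x ∈ Q, c x ∈ Q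
  cn : ∀ x ∈ Q, c x ≠ x
  cc : ∀ x ∈ Q, c (c x) = x

/-- A circle of branch sets with chords. -/
structure Sys (G : SimpleGraph V) (P : Finset ℕ) (B : ℕ → Set V) (c : ℕ → ℕ) (Q : Finset ℕ) :
    Prop where
  cir : Cir G P B
  inv : Inv c Q
  sub : Q ⊆ P
  cl : ∀ x ∈ Q, Lk G (B x) (B (c x))

/-- crossing of the chords at `x` and `y` -/
def Crs (c : ℕ → ℕ) (Q : Finset ℕ) (x y : ℕ) : Prop :=
  x ∈ Q ∧ y ∈ Q ∧ y ≠ x ∧ y ≠ c x ∧ Cr x (c x) y (c y)

lemma Crs.symm {c : ℕ → ℕ} {Q : Finset ℕ} (h : Inv c Q) {x y : ℕ} (hc : Crs c Q x y) :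
    Crs c Q y x := by
  obtain ⟨hx, hy, h1, h2, h3⟩ := hc
  have a1 := h.cn x hx
  have a2 := h.cn y hy
  have a3 : x ≠ c y := by
    intro e
    apply h2
    rw [e, h.cc y hy]
  have a4 : c x ≠ c y := by
    intro e
    apply h1
    rw [← h.cc x hx, e, h.cc y hy]
  refine ⟨hy, hx, Ne.symm h1, a3, ?_⟩
  unfold Cr at *
  omega

lemma Crs.right {c : ℕ → ℕ} {Q : Finset ℕ} (h : Inv c Q) {x y : ℕ} (hc : Crs c Q x y) :
    Crs c Q x (c y) := by
  obtain ⟨hx, hy, h1, h2, h3⟩ := hc
  have a3 : c y ≠ x := by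
    intro e
    apply h2
    rw [← e, h.cc y hy]
  have a4 : c y ≠ c x := by
    intro e
    apply h1
    rw [← h.cc x hx, ← e, h.cc y hy]
  refine ⟨hx, h.cm y hy, a3, a4, ?_⟩
  rw [h.cc y hy]
  unfold Cr at *
  omega

lemma Crs.left {c : ℕ → ℕ} {Q : Finset ℕ} (h : Inv c Q) {x y : ℕ} (hc : Crs c Q x y) :
    Crs c Q (c x) y := ((hc.symm h).right h).symm h

/-- normal form of a chord end -/
def lo (c : ℕ → ℕ) (x : ℕ) : ℕ := min x (c x)

lemma lo_eq (c : ℕ → ℕ) (x : ℕ) : lo c x = x ∨ lo c x = c x := by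
  unfold lo; omega

lemma Crs.lo {c : ℕ → ℕ} {Q : Finset ℕ} (h : Inv c Q) {x y : ℕ} (hc : Crs c Q x y) :
    Crs c Q (lo c x) (lo c y) := by
  rcases lo_eq c x with e | e <;> rcases lo_eq c y with e' | e' <;> rw [e, e']
  · exact hc
  · exact hc.right h
  · exact hc.left h
  · exact (hc.left h).right h

lemma lo_c {c : ℕ → ℕ} {Q : Finset ℕ} (h : Inv c Q) {x : ℕ} (hx : x ∈ Q) :
    CK.lo c (c x) = CK.lo c x := by
  unfold CK.lo
  rw [h.cc x hx]
  omega

/-- There is a closed sequence of `m` crossing chords in some circle of branch sets. -/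
def Has (G : SimpleGraph V) (m : ℕ) : Prop :=
  ∃ (P : Finset ℕ) (B : ℕ → Set V) (c : ℕ → ℕ) (Q : Finset ℕ) (k : ℕ → ℕ), Sys G P B c Q ∧
    (∀ i, i < m → Crs c Q (k i) (k (i + 1))) ∧ k m = k 0 ∧ ∀ i, i ≤ m → k i < c (k i)

lemma has_of_walk {G : SimpleGraph V} {P : Finset ℕ} {B : ℕ → Set V} {c : ℕ → ℕ} {Q : Finset ℕ}
    (hS : Sys G P B c Q) (m : ℕ) (hm : 0 < m) (k : ℕ → ℕ)
    (hk : ∀ i, i < m → Crs c Q (k i) (k (i + 1))) (h0 : k m = k 0) : Has G m := by
  have hQ : ∀ i, i ≤ m → k i ∈ Q := by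
    intro i hi
    by_cases h : i < m
    · exact (hk i h).1
    · have : i = (m - 1) + 1 := by omega
      rw [this]
      exact (hk (m - 1) (by omega)).2.1
  refine ⟨P, B, c, Q, fun i => lo c (k i), hS, fun i hi => (hk i hi).lo hS.inv, ?_, ?_⟩
  · show lo c (k m) = lo c (k 0)
    rw [h0]
  · intro i hi
    show lo c (k i) < c (lo c (k i))
    have h1 := hS.inv.cn _ (hQ i hi)
    have h2 := hS.inv.cc _ (hQ i hi)
    rcases lo_eq c (k i) with e | e <;> rw [e] <;> unfold lo at e <;> omega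

lemma split1 {G : SimpleGraph V} {P : Finset ℕ} {B : ℕ → Set V} {c : ℕ → ℕ} {Q : Finset ℕ}
    (hS : Sys G P B c Q) (m : ℕ) (hm : Odd m) (k : ℕ → ℕ)
    (hk : ∀ i, i < m → Crs c Q (k i) (k (i + 1))) (h0 : k m = k 0)
    (i d : ℕ) (hid : i + d ≤ m) (hd : 0 < d) (hdm : d < m) (he : k (i + d) = k i) :
    ∃ m', m' < m ∧ Odd m' ∧ Has G m' := by
  by_cases hp : Odd d
  · refine ⟨d, hdm, hp, has_of_walk hS d hd (fun t => k (i + t)) ?_ ?_⟩
    · intro t ht
      exact hk (i + t) (by omega)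
    · show k (i + d) = k (i + 0)
      rw [he, Nat.add_zero]
  · refine ⟨m - d, by omega, ?_, has_of_walk hS (m - d) (by omega)
      (fun t => if t ≤ i then k t else k (t + d)) ?_ ?_⟩
    · rw [Nat.not_odd_iff_even] at hp
      exact Nat.Odd.sub_even (by omega) hm hp
    · intro t ht
      show Crs c Q (if t ≤ i then k t else k (t + d)) (if t + 1 ≤ i then k (t + 1) else k (t + 1 + d))
      by_cases h1 : t + 1 ≤ i
      · rw [if_pos (by omega), if_pos h1]
        exact hk t (by omega)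
      · rw [if_neg h1]
        by_cases h2 : t ≤ i
        · have : t = i := by omega
          subst this
          rw [if_pos h2, ← he]
          have h3 := hk (t + d) (by omega)
          rw [show t + 1 + d = t + d + 1 by omega]
          exact h3
        · rw [if_neg h2, show t + 1 + d = t + d + 1 by omega]
          exact hk (t + d) (by omega)
    · show (if m - d ≤ i then k (m - d) else k (m - d + d)) = (if 0 ≤ i then k 0 else k (0 + d))
      rw [if_pos (Nat.zero_le i)]
      by_cases h1 : m - d ≤ i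
      · have : m - d = i := by omega
        rw [if_pos h1, this, ← he, show i + d = m by omega, h0]
      · rw [if_neg h1, show m - d + d = m by omega, h0]

lemma split2 {G : SimpleGraph V} {P : Finset ℕ} {B : ℕ → Set V} {c : ℕ → ℕ} {Q : Finset ℕ}
    (hS : Sys G P B c Q) (m : ℕ) (hm : Odd m) (k : ℕ → ℕ)
    (hk : ∀ i, i < m → Crs c Q (k i) (k (i + 1))) (h0 : k m = k 0)
    (i d : ℕ) (hid : i + d ≤ m) (hd : 2 ≤ d) (hdm : d + 2 ≤ m) (he : Crs c Q (k i) (k (i + d))) :
    ∃ m', m' < m ∧ Odd m' ∧ Has G m' := by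
  by_cases hp : Odd (d + 1)
  · refine ⟨d + 1, by omega, hp, has_of_walk hS (d + 1) (by omega)
      (fun t => if t ≤ d then k (i + t) else k i) ?_ ?_⟩
    · intro t ht
      show Crs c Q (if t ≤ d then k (i + t) else k i) (if t + 1 ≤ d then k (i + (t + 1)) else k i)
      rw [if_pos (by omega)]
      by_cases h1 : t + 1 ≤ d
      · rw [if_pos h1]
        exact hk (i + t) (by omega)
      · rw [if_neg h1]
        have : t = d := by omega
        subst this
        exact he.symm hS.inv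
    · show (if d + 1 ≤ d then k (i + (d + 1)) else k i) = (if 0 ≤ d then k (i + 0) else k i)
      rw [if_neg (by omega), if_pos (by omega), Nat.add_zero]
  · refine ⟨m - d + 1, by omega, ?_, has_of_walk hS (m - d + 1) (by omega)
      (fun t => if t ≤ i then k t else k (t + d - 1)) ?_ ?_⟩
    · rw [Nat.not_odd_iff_even] at hp
      have h2 : m - d + 1 = (m + 2) - (d + 1) := by omega
      rw [h2]
      exact Nat.Odd.sub_even (by omega) (by
        obtain ⟨r, hr⟩ := hm
        exact ⟨r + 1, by omega⟩) hp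
    · intro t ht
      show Crs c Q (if t ≤ i then k t else k (t + d - 1))
        (if t + 1 ≤ i then k (t + 1) else k (t + 1 + d - 1))
      by_cases h1 : t + 1 ≤ i
      · rw [if_pos (by omega), if_pos h1]
        exact hk t (by omega)
      · rw [if_neg h1]
        by_cases h2 : t ≤ i
        · have : t = i := by omega
          subst this
          rw [if_pos h2, show t + 1 + d - 1 = t + d by omega]
          exact he
        · rw [if_neg h2]
          have h3 := hk (t + d - 1) (by omega)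
          rw [show t + d - 1 + 1 = t + 1 + d - 1 by omega] at h3
          exact h3
    · show (if m - d + 1 ≤ i then k (m - d + 1) else k (m - d + 1 + d - 1)) =
        (if 0 ≤ i then k 0 else k (0 + d - 1))
      rw [if_pos (Nat.zero_le i), if_neg (by omega), show m - d + 1 + d - 1 = m by omega, h0]

end Pool.Agent.Helper95.CK
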