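import Pool.Agent.Helper95.CK.Odd
import Pool.Agent.Helper42.CT.Graph

/-!
Kuratowski for Hamiltonian cubic graphs, part 5: a two-colouring of the chords without
monochromatic crossings gives a planar rotation system.
-/

set_option autoImplicit false

namespace Pool.Agent.Helper95.CK

open Pool.Agent.Helper17.CT

/-- A Hamilton cycle of a cubic graph, with the third neighbour `c`. -/
structure Hc {V : Type} (G : SimpleGraph V) where
  n : ℕ
  pos : V → ℕ
  nx : V → V
  pv : V → V
  c : V → V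
  nxpv : ∀ v, nx (pv v) = v
  pvnx : ∀ v, pv (nx v) = v
  cc : ∀ v, c (c v) = v
  an : ∀ v, G.Adj v (nx v)
  ac : ∀ v, G.Adj v (c v)
  d1 : ∀ v, nx v ≠ pv v
  d2 : ∀ v, nx v ≠ c v
  d3 : ∀ v, pv v ≠ c v
  nb : ∀ v w, G.Adj v w → w = nx v ∨ w = pv v ∨ w = c v
  pinj : Function.Injective pos
  plt : ∀ v, pos v < n
  pnx : ∀ v, pos (nx v) = pos v + 1 ∨ (pos (nx v) = 0 ∧ pos v + 1 = n)

/-- Booleans in `ZMod 2`. -/
def zb (b : Bool) : ZMod 2 := if b then 1 else 0

/-- Back to booleans. -/
def tb (x : ZMod 2) : Bool := decide (x = 1)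

lemma tb_zb (b : Bool) : tb (zb b) = b := by
  cases b <;> decide

lemma tb_add (x y : ZMod 2) : tb (x + y) = (tb x ^^ tb y) := by
  revert x y; decide

lemma kk (K a b : ZMod 2) : a + b = K + a + (K + b) := by
  revert K a b; decide

lemma zb_xor (a b : Bool) : zb (a ^^ b) = zb a + zb b := by
  revert a b; decide

lemma two0 (x : ZMod 2) : x + x = 0 := by
  revert x; decide

lemma add_eq_iff (x y z : ZMod 2) (h : x + y + z = 0) : x = y + z := by
  revert x y z; decide

namespace Hc

variable {V : Type} {G : SimpleGraph V} (H : Hc G)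

lemma cn (v : V) : H.c v ≠ v := fun h => (H.ac v).ne h.symm

lemma cinj {v w : V} (h : H.c v = H.c w) : v = w := by
  rw [← H.cc v, h, H.cc w]

/-- No two crossing chords have the same colour. -/
def NoCr (β : V → Bool) : Prop :=
  (∀ v, β (H.c v) = β v) ∧ ∀ v w, β v = β w → w ≠ v → w ≠ H.c v →
    ¬ Cr (H.pos v) (H.pos (H.c v)) (H.pos w) (H.pos (H.c w))

section sums

variable [Fintype V] {β : V → Bool} (hβ : H.NoCr β) (z : V → ZMod 2)
  (hz : ∀ v, z (H.c v) = z v)

/-- restricted weight -/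
def F (β : V → Bool) (z : V → ZMod 2) (γ : Bool) (w : V) : ZMod 2 := if β w = γ then z w else 0

/-- partial sum, strict -/
def S (β : V → Bool) (z : V → ZMod 2) (γ : Bool) (v : V) : ZMod 2 :=
  ∑ w, if H.pos w < H.pos v then F β z γ w else 0

/-- partial sum, weak -/
def S' (β : V → Bool) (z : V → ZMod 2) (γ : Bool) (v : V) : ZMod 2 :=
  ∑ w, if H.pos w ≤ H.pos v then F β z γ w else 0

include hβ hz in
lemma sumI (γ : Bool) (p : V → Prop) [DecidablePred p] (hp : ∀ w, p w → β w = γ → p (H.c w)) :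
    (∑ w, if p w then F β z γ w else 0) = 0 := by
  rw [← Finset.sum_filter]
  refine Finset.sum_involution (fun w _ => if β w = γ then H.c w else w) ?_ ?_ ?_ ?_
  · intro w _
    by_cases h : β w = γ
    · rw [if_pos h]
      unfold F
      rw [hβ.1, hz, if_pos h]
      exact two0 _
    · rw [if_neg h]
      exact two0 _
  · intro w _ hw
    have h : β w = γ := by
      by_contra h
      apply hw
      unfold F
      rw [if_neg h]
    rw [if_pos h]
    exact H.cn w
  · intro w hw
    rw [Finset.mem_filter] at hw ⊢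
    by_cases h : β w = γ
    · rw [if_pos h]
      exact ⟨Finset.mem_univ _, hp w hw.2 h⟩
    · rw [if_neg h]
      exact hw
  · intro w _
    by_cases h : β w = γ
    · simp only [h, if_true, hβ.1, H.cc]
    · simp only [h, if_false]

include hβ hz in
lemma total (γ : Bool) : (∑ w, F β z γ w) = 0 := by
  have := H.sumI hβ z hz γ (fun _ => True) (fun _ _ _ => trivial)
  simpa using this

include hβ hz in
/-- (w1) -/
lemma S_nx (γ : Bool) (v : V) : H.S β z γ (H.nx v) = H.S' β z γ v := by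
  unfold S S'
  rcases H.pnx v with h | ⟨h, h'⟩
  · rw [h]
    apply Finset.sum_congr rfl
    intro w _
    by_cases hw : H.pos w ≤ H.pos v
    · rw [if_pos hw, if_pos (by omega)]
    · rw [if_neg hw, if_neg (by omega)]
  · rw [h]
    have e1 : (∑ w, if H.pos w < 0 then F β z γ w else 0) = 0 := by
      apply Finset.sum_eq_zero
      intro w _
      rw [if_neg (by omega)]
    have e2 : (∑ w, if H.pos w ≤ H.pos v then F β z γ w else 0) = ∑ w, F β z γ w := by
      apply Finset.sum_congr rfl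
      intro w _
      have := H.plt w
      rw [if_pos (by omega)]
    rw [e1, e2, H.total hβ z hz γ]

/-- (w2) -/
lemma S'_eq (γ : Bool) (v : V) : H.S' β z γ v = H.S β z γ v + F β z γ v := by
  classical
  unfold S S'
  have : F β z γ v = ∑ w, if w = v then F β z γ w else 0 := by
    rw [Finset.sum_ite_eq' Finset.univ v]
    simp
  rw [this, ← Finset.sum_add_distrib]
  apply Finset.sum_congr rfl
  intro w _
  by_cases hw : w = v
  · subst hw
    simp
  · have : H.pos w ≠ H.pos v := fun h => hw (H.pinj h)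
    rw [if_neg hw, add_zero]
    by_cases hw' : H.pos w ≤ H.pos v
    · rw [if_pos hw', if_pos (by omega)]
    · rw [if_neg hw', if_neg (by omega)]

include hβ hz in
/-- (w3) -/
lemma S'_c (γ : Bool) (v : V) (hv : β v = γ) : H.S' β z γ v = H.S β z γ (H.c v) := by
  have hne : H.pos (H.c v) ≠ H.pos v := fun h => H.cn v (H.pinj h)
  rcases lt_or_gt_of_ne hne with h | h
  · -- c v before v
    have hI := H.sumI hβ z hz γ (fun w => H.pos (H.c v) ≤ H.pos w ∧ H.pos w ≤ H.pos v) (by
      rintro w ⟨h1, h2⟩ hw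
      by_cases e1 : w = v
      · subst e1; exact ⟨le_refl _, h.le⟩
      by_cases e2 : w = H.c v
      · subst e2; rw [H.cc]; exact ⟨h.le, le_refl _⟩
      have h3 := hβ.2 v w (hv.trans hw.symm) e1 e2
      have n1 : H.pos w ≠ H.pos v := fun h => e1 (H.pinj h)
      have n2 : H.pos w ≠ H.pos (H.c v) := fun h => e2 (H.pinj h)
      have n3 : H.pos (H.c w) ≠ H.pos v := fun h => e2 (by rw [← H.pinj h, H.cc])
      have n4 : H.pos (H.c w) ≠ H.pos (H.c v) := fun h => e1 (H.cinj (H.pinj h))
      unfold Cr at h3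
      omega)
    have e : H.S' β z γ v = H.S β z γ (H.c v) +
        ∑ w, (if H.pos (H.c v) ≤ H.pos w ∧ H.pos w ≤ H.pos v then F β z γ w else 0) := by
      unfold S S'
      rw [← Finset.sum_add_distrib]
      apply Finset.sum_congr rfl
      intro w _
      split_ifs <;> first | omega | simp
    rw [e, hI, add_zero]
  · have hI := H.sumI hβ z hz γ (fun w => H.pos v < H.pos w ∧ H.pos w < H.pos (H.c v)) (by
      rintro w ⟨h1, h2⟩ hw
      have e1 : w ≠ v := by rintro rfl; omega
      have e2 : w ≠ H.c v := by rintro rfl; omega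
      have h3 := hβ.2 v w (hv.trans hw.symm) e1 e2
      have n3 : H.pos (H.c w) ≠ H.pos v := fun h => e2 (by rw [← H.pinj h, H.cc])
      have n4 : H.pos (H.c w) ≠ H.pos (H.c v) := fun h => e1 (H.cinj (H.pinj h))
      unfold Cr at h3
      omega)
    have e : H.S β z γ (H.c v) = H.S' β z γ v +
        ∑ w, (if H.pos v < H.pos w ∧ H.pos w < H.pos (H.c v) then F β z γ w else 0) := by
      unfold S S'
      rw [← Finset.sum_add_distrib]
      apply Finset.sum_congr rfl
      intro w _
      split_ifs <;> first | omega | simp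
    rw [e, hI, add_zero]

include hβ hz in
lemma S_add (γ : Bool) (v : V) (hv : β v = γ) :
    H.S β z γ v + H.S β z γ (H.c v) = z v := by
  have h1 := H.S'_c hβ z hz γ v hv
  have h2 := H.S'_eq (β := β) z γ v
  rw [← h1, h2, ← add_assoc, two0, zero_add]
  unfold F
  rw [if_pos hv]

end sums

/-- The dart to the next vertex. -/
def dn (v : V) : G.Dart := ⟨(v, H.nx v), H.an v⟩

/-- The dart to the previous vertex. -/
def dp (v : V) : G.Dart := ⟨(v, H.pv v), by
  have := (H.an (H.pv v)).symm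
  rwa [H.nxpv] at this⟩

/-- The dart of the chord. -/
def dc (v : V) : G.Dart := ⟨(v, H.c v), H.ac v⟩

lemma symm_dn (v : V) : (H.dn v).symm = H.dp (H.nx v) := by
  apply SimpleGraph.Dart.ext
  show (H.nx v, v) = (H.nx v, H.pv (H.nx v))
  rw [H.pvnx]

lemma symm_dp (v : V) : (H.dp v).symm = H.dn (H.pv v) := by
  apply SimpleGraph.Dart.ext
  show (H.pv v, v) = (H.pv v, H.nx (H.pv v))
  rw [H.nxpv]

lemma symm_dc (v : V) : (H.dc v).symm = H.dc (H.c v) := by
  apply SimpleGraph.Dart.ext
  show (H.c v, v) = (H.c v, H.c (H.c v))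
  rw [H.cc]

lemma cases (d : G.Dart) : (∃ v, d = H.dn v) ∨ (∃ v, d = H.dp v) ∨ ∃ v, d = H.dc v := by
  rcases H.nb _ _ d.adj with h | h | h
  · left
    refine ⟨d.fst, SimpleGraph.Dart.ext _ _ (Prod.ext rfl h)⟩
  · right; left
    refine ⟨d.fst, SimpleGraph.Dart.ext _ _ (Prod.ext rfl h)⟩
  · right; right
    refine ⟨d.fst, SimpleGraph.Dart.ext _ _ (Prod.ext rfl h)⟩

open Classical in
/-- A function on darts given by its values on the three kinds of darts. -/
noncomputable def kd {α : Type} (a b c : V → α) (d : G.Dart) : α :=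
  if d.snd = H.nx d.fst then a d.fst else if d.snd = H.pv d.fst then b d.fst else c d.fst

lemma kd_dn {α : Type} (a b c : V → α) (v : V) : H.kd a b c (H.dn v) = a v := by
  unfold kd
  exact if_pos rfl

lemma kd_dp {α : Type} (a b c : V → α) (v : V) : H.kd a b c (H.dp v) = b v := by
  have h1 : (H.dp v).snd ≠ H.nx (H.dp v).fst := fun h => H.d1 v h.symm
  unfold kd
  exact (if_neg h1).trans (if_pos rfl)

lemma kd_dc {α : Type} (a b c : V → α) (v : V) : H.kd a b c (H.dc v) = c v := by
  unfold kd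
  rw [if_neg, if_neg]
  · rfl
  · intro h
    exact H.d3 v h.symm
  · intro h
    exact H.d2 v h.symm

/-- The rotation. -/
noncomputable def rho (β : V → Bool) : G.Dart → G.Dart :=
  H.kd (fun v => if β v then H.dc v else H.dp v) (fun v => if β v then H.dn v else H.dc v)
    (fun v => if β v then H.dp v else H.dn v)

lemma rho_dn (β : V → Bool) (v : V) : H.rho β (H.dn v) = if β v then H.dc v else H.dp v :=
  H.kd_dn _ _ _ v

lemma rho_dp (β : V → Bool) (v : V) : H.rho β (H.dp v) = if β v then H.dn v else H.dc v :=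
  H.kd_dp _ _ _ v

lemma rho_dc (β : V → Bool) (v : V) : H.rho β (H.dc v) = if β v then H.dp v else H.dn v :=
  H.kd_dc _ _ _ v

lemma rho3 (β : V → Bool) (d : G.Dart) : H.rho β (H.rho β (H.rho β d)) = d := by
  rcases H.cases d with ⟨v, rfl⟩ | ⟨v, rfl⟩ | ⟨v, rfl⟩ <;> by_cases h : β v = true
  · rw [H.rho_dn, if_pos h, H.rho_dc, if_pos h, H.rho_dp, if_pos h]
  · rw [H.rho_dn, if_neg h, H.rho_dp, if_neg h, H.rho_dc, if_neg h]
  · rw [H.rho_dp, if_pos h, H.rho_dn, if_pos h, H.rho_dc, if_pos h]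
  · rw [H.rho_dp, if_neg h, H.rho_dc, if_neg h, H.rho_dn, if_neg h]
  · rw [H.rho_dc, if_pos h, H.rho_dp, if_pos h, H.rho_dn, if_pos h]
  · rw [H.rho_dc, if_neg h, H.rho_dn, if_neg h, H.rho_dp, if_neg h]

/-- The rotation as a permutation. -/
noncomputable def perm (β : V → Bool) : Equiv.Perm G.Dart where
  toFun := H.rho β
  invFun := fun d => H.rho β (H.rho β d)
  left_inv := H.rho3 β
  right_inv := H.rho3 β

lemma perm_fst (β : V → Bool) (d : G.Dart) : (H.perm β d).fst = d.fst := by
  show (H.rho β d).fst = d.fst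
  rcases H.cases d with ⟨v, rfl⟩ | ⟨v, rfl⟩ | ⟨v, rfl⟩ <;> by_cases h : β v = true
  · rw [H.rho_dn, if_pos h]; rfl
  · rw [H.rho_dn, if_neg h]; rfl
  · rw [H.rho_dp, if_pos h]; rfl
  · rw [H.rho_dp, if_neg h]; rfl
  · rw [H.rho_dc, if_pos h]; rfl
  · rw [H.rho_dc, if_neg h]; rfl

lemma perm_ne (β : V → Bool) (d : G.Dart) : H.perm β d ≠ d := by
  show H.rho β d ≠ d
  have key : ∀ x y : G.Dart, x.snd ≠ y.snd → x ≠ y := fun x y h e => h (by rw [e])
  rcases H.cases d with ⟨v, rfl⟩ | ⟨v, rfl⟩ | ⟨v, rfl⟩ <;> by_cases h : β v = true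
  · rw [H.rho_dn, if_pos h]; exact key _ _ (Ne.symm (H.d2 v))
  · rw [H.rho_dn, if_neg h]; exact key _ _ (Ne.symm (H.d1 v))
  · rw [H.rho_dp, if_pos h]; exact key _ _ (H.d1 v)
  · rw [H.rho_dp, if_neg h]; exact key _ _ (Ne.symm (H.d3 v))
  · rw [H.rho_dc, if_pos h]; exact key _ _ (H.d3 v)
  · rw [H.rho_dc, if_neg h]; exact key _ _ (H.d2 v)

lemma const {α : Type} (D : V → α) (h : ∀ v, D (H.nx v) = D v) : ∃ K : Set α, (∀ v, D v ∈ K) ∧
    K.Subsingleton := by
  have key : ∀ m v, H.pos v = m → ∃ u, H.pos u = 0 ∧ D u = D v := by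
    intro m
    induction m with
    | zero => exact fun v hv => ⟨v, hv, rfl⟩
    | succ m ih =>
      intro v hv
      have h1 := H.pnx (H.pv v)
      rw [H.nxpv] at h1
      obtain ⟨u, hu, hD⟩ := ih (H.pv v) (by omega)
      refine ⟨u, hu, ?_⟩
      have h2 := h (H.pv v)
      rw [H.nxpv] at h2
      rw [hD, h2]
  refine ⟨Set.range D, fun v => ⟨v, rfl⟩, ?_⟩
  rintro _ ⟨v, rfl⟩ _ ⟨w, rfl⟩
  obtain ⟨u, hu, e⟩ := key _ v rfl
  obtain ⟨u', hu', e'⟩ := key _ w rfl
  have : u = u' := H.pinj (hu.trans hu'.symm)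
  rw [← e, ← e', this]

theorem planar [Fintype V] [DecidableEq V] {β : V → Bool} (hβ : H.NoCr β)
    (h3 : ∀ v : V, (G.neighborSet v).ncard = 3) :
    (mapOf G (H.perm β) (H.perm_fst β) (H.perm_ne β) h3).Planar := by
  intro Z hZ
  obtain ⟨hZa, hZs⟩ := hZ
  have hZa : ∀ d : G.Dart, Z d.symm = Z d := hZa
  have hZs : ∀ d : G.Dart, (Z d ^^ Z (H.rho β d) ^^ Z (H.rho β (H.rho β d))) = false := hZs
  -- evenness
  have hev : ∀ v, zb (Z (H.dn v)) + zb (Z (H.dp v)) + zb (Z (H.dc v)) = 0 := by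
    intro v
    have h1 := hZs (H.dn v)
    by_cases h : β v = true
    · rw [H.rho_dn, if_pos h, H.rho_dc, if_pos h] at h1
      rw [← zb_xor, ← zb_xor]
      have : (Z (H.dn v) ^^ Z (H.dp v) ^^ Z (H.dc v)) = false := by
        rw [← h1]
        cases Z (H.dn v) <;> cases Z (H.dp v) <;> cases Z (H.dc v) <;> rfl
      rw [this]; rfl
    · rw [H.rho_dn, if_neg h, H.rho_dp, if_neg h] at h1
      rw [← zb_xor, ← zb_xor, h1]; rfl
  let z : V → ZMod 2 := fun v => zb (Z (H.dc v))
  have hz : ∀ v, z (H.c v) = z v := by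
    intro v
    show zb (Z (H.dc (H.c v))) = zb (Z (H.dc v))
    rw [← H.symm_dc, hZa]
  have hFF : ∀ v, F β z true v + F β z false v = z v := by
    intro v
    unfold F
    cases β v <;> simp
  obtain ⟨K, hK⟩ : ∃ K : ZMod 2, ∀ v,
      zb (Z (H.dn v)) + (H.S' β z true v + H.S' β z false v) = K := by
    obtain ⟨Ks, h1, h2⟩ := H.const
      (fun v => zb (Z (H.dn v)) + (H.S' β z true v + H.S' β z false v)) (by
      intro v
      show zb (Z (H.dn (H.nx v))) + (H.S' β z true (H.nx v) + H.S' β z false (H.nx v)) =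
        zb (Z (H.dn v)) + (H.S' β z true v + H.S' β z false v)
      rw [H.S'_eq, H.S'_eq, H.S_nx hβ z hz, H.S_nx hβ z hz]
      have e1 := hev (H.nx v)
      rw [← H.symm_dn, hZa] at e1
      have e2 := hFF (H.nx v)
      have e3 : zb (Z (H.dc (H.nx v))) = z (H.nx v) := rfl
      rw [e3, ← e2] at e1
      generalize zb (Z (H.dn (H.nx v))) = a1 at *
      generalize zb (Z (H.dn v)) = a2 at *
      generalize F β z true (H.nx v) = a3 at *
      generalize F β z false (H.nx v) = a4 at *
      generalize H.S' β z true v = a5 at *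
      generalize H.S' β z false v = a6 at *
      clear e2 e3 hFF hz z
      revert a1 a2 a3 a4 a5 a6
      decide)
    by_cases hV : Nonempty V
    · obtain ⟨v0⟩ := hV
      exact ⟨_, fun v => h2 (h1 v) (h1 v0)⟩
    · exact ⟨0, fun v => absurd ⟨v⟩ hV⟩
  let Φ : G.Dart → ZMod 2 := H.kd (fun v => K + H.S' β z false v) (fun v => H.S β z true v)
    (fun v => if β v then H.S' β z true v else K + H.S β z false v)
  have P1 : ∀ v, Φ (H.dn v) = K + H.S' β z false v := fun v => H.kd_dn _ _ _ v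
  have P2 : ∀ v, Φ (H.dp v) = H.S β z true v := fun v => H.kd_dp _ _ _ v
  have P3 : ∀ v, Φ (H.dc v) = if β v then H.S' β z true v else K + H.S β z false v :=
    fun v => H.kd_dc _ _ _ v
  have SF : ∀ v γ, β v ≠ γ → H.S' β z γ v = H.S β z γ v := by
    intro v γ h
    rw [H.S'_eq]
    unfold F
    rw [if_neg h, add_zero]
  refine ⟨fun d => tb (Φ d), ?_, ?_⟩
  · intro d
    show tb (Φ (H.rho β d.symm)) = tb (Φ d)
    congr 1
    rcases H.cases d with ⟨v, rfl⟩ | ⟨v, rfl⟩ | ⟨v, rfl⟩
    · rw [H.symm_dn, H.rho_dp, P1]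
      by_cases h : β (H.nx v) = true
      · rw [if_pos h, P1, SF _ _ (by rw [h]; decide), H.S_nx hβ z hz]
      · rw [if_neg h, P3, if_neg h, H.S_nx hβ z hz]
    · rw [H.symm_dp, H.rho_dn, P2]
      have e := H.S_nx hβ z hz true (H.pv v)
      rw [H.nxpv] at e
      by_cases h : β (H.pv v) = true
      · rw [if_pos h, P3, if_pos h, e]
      · rw [if_neg h, P2, e, SF _ _ h]
    · rw [H.symm_dc, H.rho_dc, P3]
      have hb : β (H.c v) = β v := hβ.1 v
      by_cases h : β v = true
      · rw [if_pos (hb.trans h), P2, if_pos h, H.S'_c hβ z hz true v h]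
      · have h' : β v = false := by simpa using h
        rw [if_neg (by rw [hb]; exact h), P1, if_neg h,
          H.S'_c hβ z hz false (H.c v) (hb.trans h'), H.cc]
  · intro d
    show Z d = (tb (Φ d) ^^ tb (Φ d.symm))
    rw [← tb_add, ← tb_zb (Z d)]
    congr 1
    have hn : ∀ v, zb (Z (H.dn v)) = Φ (H.dn v) + Φ (H.dp (H.nx v)) := by
      intro v
      rw [P1, P2, H.S_nx hβ z hz, ← hK v]
      generalize zb (Z (H.dn v)) = a1
      generalize H.S' β z true v = a5
      generalize H.S' β z false v = a6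
      revert a1 a5 a6
      decide
    rcases H.cases d with ⟨v, rfl⟩ | ⟨v, rfl⟩ | ⟨v, rfl⟩
    · rw [H.symm_dn]
      exact hn v
    · have := hn (H.pv v)
      rw [H.nxpv, ← H.symm_dp, hZa] at this
      rw [this, add_comm]
    · rw [H.symm_dc, P3, P3]
      have hb : β (H.c v) = β v := hβ.1 v
      by_cases h : β v = true
      · rw [if_pos (hb.trans h), if_pos h, H.S'_c hβ z hz true v h,
          H.S'_c hβ z hz true (H.c v) (hb.trans h), H.cc, add_comm, H.S_add hβ z hz true v h]
      · have h' : β v = false := by simpa using h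
        rw [if_neg h, if_neg (by rw [hb]; exact h)]
        have e := H.S_add hβ z hz false v h'
        show z v = _
        rw [← e]
        exact kk _ _ _

end Hc

end Pool.Agent.Helper95.CK
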